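import Pool.Agent.Work.MP_46fa68_h5.Near
import Pool.Agent.Work.MP_46fa68_31.Sharp

/-!
# MP_46fa68_co: row 2 near the wall: the bridge from ROWB to the numbers `Nn`
-/

set_option autoImplicit false

open Finset

namespace Pool.JM

open H5 in
theorem BR {m : ℕ} (hm : 21 ≤ m) : Stmt_BR m := by
  intro A M hM B hB hn h4
  obtain ⟨i, b, h⟩ := exists_R2 (by omega : 3 ≤ m) hM hB
  have hsb : sb B = M + m - i := y_eq h
  have him := h.him
  have hi : M + m = sb B + i := by omega
  have hii : M + m - sb B = i := by omega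
  have hn' : 3 * i ≤ m + 6 := by rw [hii] at hn; exact hn
  rw [hii]
  obtain ⟨hlt, htp, hsp, hbox⟩ := sb_row hB hM
  have hsm := sb_mem hB hM
  have hsB := mem_of_mem_erase hsm
  have hab := h.hab_near hn'
  have hD := h.D_pos hab
  have hdi := h.di_pos
  -- the row data
  have hln : ln B (sb B) = m + 1 - i := by omega
  have hbx : bx B (sb B) = b := by
    have h1 := h.hbd
    have h2 : (b : ℝ) + tb B + 4 = i + M + m := by linarith
    have h3 : b + tb B + 4 = i + M + m := by exact_mod_cast h2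
    omega
  -- the hooks
  have h1 := hk_sharp B (sb B) (r := 0) (by rw [hbx, hln]; omega)
  rw [hln, hbx, add_zero, show m + 1 - i + 1 = m + 2 - i by omega, zero_add, one_mul,
    Nat.factorial_zero, Nat.cast_one, one_mul] at h1
  have e1 : ((m + 2 - i : ℕ) : ℝ) - b = (m : ℝ) + 6 - 2 * i - ((M : ℝ) + m - tb B) := by
    have hb := h.hbd
    rw [Nat.cast_sub (by omega)]
    push_cast
    linarith
  rw [e1] at h1
  have h2 : da B (sb B) = (i : ℝ) - ((M : ℝ) + m - tb B) := by
    rw [da_second h.hT hlt fun z hz hne => le_sb (mem_erase.2 ⟨hne, hz⟩)]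
    have h3 : (M : ℝ) + m = sb B + i := by exact_mod_cast hi
    linarith
  have hR := ROWB (m := m) (by omega) M A B hB (sb B) hsm h4
  rw [hii, etaR_eq hsB, h2] at hR
  have hk0 := hk_pos B (sb B)
  generalize hdd : (M : ℝ) + m - tb B = d at h1 h2 hR hD hdi ⊢
  have hdi0 : 0 < (i : ℝ) - d := by linarith
  have hD0 : 0 < (m : ℝ) + 6 - 2 * i - d := by linarith
  have hBd : 0 ≤ BdR m i d := by
    have h3 : 0 < hk B (sb B) / ((i : ℝ) - d) := div_pos hk0 hdi0
    exact nonneg_of_mul_nonneg_left ((abs_nonneg _).trans hR) h3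
  refine hR.trans ?_
  unfold Nn
  rw [mul_div_assoc, ← div_div]
  exact mul_le_mul_of_nonneg_left (div_le_div_of_nonneg_right h1 hdi0.le) hBd

/-- helper81's classes -/
theorem CL45 {m : ℕ} (hm : 21 ≤ m) : Stmt_CL m 4 5 (3 / 25) := by
  intro A M hA hM B hB hT hx _
  have := C45 (A := A) hm (by omega) hB (by omega) (mem_of_mem_erase (sb_mem hB hM)) (by omega)
  linarith

theorem CL67 {m : ℕ} (hm : 21 ≤ m) : Stmt_CL m 6 7 (3 / 25) := by
  intro A M hA hM B hB hT hx _
  have := C67 (A := A) hm (by omega) hB hT (mem_of_mem_erase (sb_mem hB hM)) hx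
  linarith

theorem CL89 {m : ℕ} (hm : 21 ≤ m) : Stmt_CL m 8 9 (3 / 25) := by
  intro A M hA hM B hB hT hx _
  have := C89 (A := A) hm (by omega) hB hT (mem_of_mem_erase (sb_mem hB hM)) hx
  linarith

end Pool.JM
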