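import Pool.Agent.Work.MP_46fa68_h5.RowC

/-!
# MP_46fa68_co: ROWB
-/

set_option autoImplicit false

open Finset

namespace Pool.JM.H5

/-- the term `n = 1` -/
theorem term_one {m M i : ℕ} (hm : 16 ≤ m) (hi : 4 ≤ i) (hiM : i ≤ M + m) {B : Finset ℕ}
    (hB : B ∈ Lv (M + 1) (m + (m - 3))) {x : ℕ} (hx : x ∈ B.erase (tb B)) (hxi : x = M + m - i) :
    |kh m (M + m) x (i - 1) * Rr B x (i - 1)| ≤
      (((m + i - 5).factorial : ℝ) / (((i - 1).factorial : ℝ) * ((m - 3).factorial : ℝ))) *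
        (3 * (m : ℝ) - 2) * (etaR B x * (|(M : ℝ) + m - tb B - 1| / (m.factorial : ℝ))) := by
  have h1 := Rr_le_eta (by omega) hB hx (p := i - 1) (by omega)
  rw [show x + (i - 1) = M + m - 1 by omega, show M + m - 1 + 1 - M = m by omega] at h1
  have h2 : (((M + m - 1 : ℕ) : ℝ) - tb B) = (M : ℝ) + m - tb B - 1 := by
    rw [Nat.cast_sub (by omega)]
    push_cast
    ring
  rw [h2] at h1
  have h3 := kh_one (M0 := M + m) (by omega : 4 ≤ m) (by omega : 3 ≤ i) hiM
  rw [gR_eq (by omega) (by omega), ← hxi] at h3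
  rw [abs_mul, h3]
  refine mul_le_mul ?_ h1 (abs_nonneg _) ?_
  · rw [abs_mul, abs_neg, abs_pow, abs_neg, abs_one, one_pow, one_mul, abs_mul,
      abs_of_nonneg (by positivity)]
    exact mul_le_mul_of_nonneg_left (g1m_abs hm).1 (by positivity)
  · have : (16 : ℝ) ≤ m := by exact_mod_cast hm
    have h5 : 0 ≤ 3 * (m : ℝ) - 2 := by linarith
    positivity

/-- the terms `n = k + 2` -/
theorem term_two {m M i : ℕ} (hm : 16 ≤ m) (hi : 4 ≤ i) (hiM : i ≤ M + m) {B : Finset ℕ}
    (hB : B ∈ Lv (M + 1) (m + (m - 3))) {x : ℕ} (hx : x ∈ B.erase (tb B)) (hxi : x = M + m - i)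
    (k : ℕ) :
    |kh m (M + m) x (i + k) * Rr B x (i + k)| ≤
      (muR m i * (((m + i + k - 4).factorial : ℝ) * ((k : ℝ) + 1) /
        (((m - 4).factorial : ℝ) * ((i - 1).factorial : ℝ) * ((k + 2).factorial : ℝ))) +
      (((m + i - 5).factorial : ℝ) / (((i - 1).factorial : ℝ) * ((m - 3).factorial : ℝ))) *
        ((2 * ((m : ℝ) - 1) * ((m : ℝ) + 1) + ((i : ℝ) - 1) * ((i : ℝ) - 2) / 2) *
          ((i - 3 + k).choose k : ℝ))) *
      (etaR B x * ((|(M : ℝ) + m - tb B| + k) / ((m + 1 + k).factorial : ℝ))) := by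
  have h1 := Rr_le_eta (by omega) hB hx (p := i + k) (by omega)
  rw [show x + (i + k) = M + m + k by omega, show M + m + k + 1 - M = m + 1 + k by omega] at h1
  have heta : 0 ≤ etaR B x := by
    unfold etaR
    positivity
  have f1 : (0 : ℝ) < ((m + 1 + k).factorial : ℝ) := by exact_mod_cast Nat.factorial_pos _
  have h2 : |(((M + m + k : ℕ) : ℝ) - tb B)| ≤ |(M : ℝ) + m - tb B| + k := by
    have e : (((M + m + k : ℕ) : ℝ) - tb B) = ((M : ℝ) + m - tb B) + k := by
      push_cast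
      ring
    rw [e]
    refine (abs_add_le _ _).trans ?_
    rw [abs_of_nonneg (Nat.cast_nonneg k : (0 : ℝ) ≤ (k : ℝ))]
  have h1' : |Rr B x (i + k)| ≤
      etaR B x * ((|(M : ℝ) + m - tb B| + k) / ((m + 1 + k).factorial : ℝ)) :=
    h1.trans (mul_le_mul_of_nonneg_left (div_le_div_of_nonneg_right h2 f1.le) heta)
  have h3 := kh_two (M0 := M + m) (by omega : 4 ≤ m) (by omega : 3 ≤ i) hiM k
  rw [gR_eq (by omega) (by omega), ← hxi] at h3
  have hmR : (16 : ℝ) ≤ m := by exact_mod_cast hm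
  have hiR : (4 : ℝ) ≤ i := by exact_mod_cast hi
  have hmu : 0 ≤ muR m i := le_trans zero_le_one (le_max_left _ _)
  have hg0 : 0 ≤ ((m + i - 5).factorial : ℝ) / (((i - 1).factorial : ℝ) * ((m - 3).factorial : ℝ)) := by
    positivity
  rw [abs_mul, h3]
  refine mul_le_mul ?_ h1' (abs_nonneg _) ?_
  · rw [abs_mul, abs_neg, abs_pow, abs_neg, abs_one, one_pow, one_mul]
    refine (abs_add_le _ _).trans ?_
    refine add_le_add (Abin_le hm (by omega) k) ?_
    rw [abs_mul, abs_of_nonneg hg0]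
    exact mul_le_mul_of_nonneg_left (bracket_le hm (by omega) k) hg0
  · have h5 : 0 ≤ 2 * ((m : ℝ) - 1) * ((m : ℝ) + 1) + ((i : ℝ) - 1) * ((i : ℝ) - 2) / 2 := by
      have h6 : 0 ≤ (m : ℝ) - 1 := by linarith
      have h7 : 0 ≤ (i : ℝ) - 1 := by linarith
      have h8 : 0 ≤ (i : ℝ) - 2 := by linarith
      positivity
    positivity

/-- **ROWB** -/
theorem _root_.Pool.JM.ROWB {m : ℕ} (hm : 16 ≤ m) : Stmt_ROWB m := by
  intro M A B hB x hx hx4
  obtain ⟨i, hi⟩ : ∃ i, i = M + m - x := ⟨_, rfl⟩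
  have hi4 : 4 ≤ i := by omega
  have hiM : i ≤ M + m := by omega
  have hxi : x = M + m - i := by omega
  rw [← hi]
  set d : ℝ := (M : ℝ) + m - tb B with hd
  have hmR : (16 : ℝ) ≤ m := by exact_mod_cast hm
  have hiR : (4 : ℝ) ≤ i := by exact_mod_cast hi4
  have heta : 0 ≤ etaR B x := by
    unfold etaR
    positivity
  have hmu : 0 ≤ muR m i := le_trans zero_le_one (le_max_left _ _)
  have hD : 0 ≤ |d| := abs_nonneg d
  -- split the sum
  have h1 : |Cr m A (M + m) B x| ≤ |kh m (M + m) x (i - 1) * Rr B x (i - 1)| +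
      ∑ k ∈ range (A + 1), |kh m (M + m) x (i + k) * Rr B x (i + k)| := by
    unfold Cr
    refine (abs_sum_le_sum_abs _ _).trans ?_
    have e1 : ∑ p ∈ range (A + 1), |kh m (M + m) x p * Rr B x p| ≤
        ∑ p ∈ range (i + (A + 1)), |kh m (M + m) x p * Rr B x p| :=
      sum_le_sum_of_subset_of_nonneg (range_subset_range.2 (by omega)) fun _ _ _ => abs_nonneg _
    refine e1.trans (le_of_eq ?_)
    rw [sum_range_add]
    congr 1
    obtain ⟨j, hj⟩ : ∃ j, i = j + 1 := ⟨i - 1, by omega⟩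
    rw [hj, sum_range_succ, Nat.add_sub_cancel]
    rw [sum_eq_zero, zero_add]
    intro p hp
    have hp' := mem_range.1 hp
    rw [kh_lt (by omega), zero_mul, abs_zero]
  refine h1.trans ?_
  -- the two parts
  have hF : (0 : ℝ) < ((m + i - 5).factorial : ℝ) := by exact_mod_cast Nat.factorial_pos _
  have hF1 : (0 : ℝ) < ((i - 1).factorial : ℝ) := by exact_mod_cast Nat.factorial_pos _
  have hF3 : (0 : ℝ) < ((m - 4).factorial : ℝ) := by exact_mod_cast Nat.factorial_pos _
  have hF4 : (0 : ℝ) < (m.factorial : ℝ) := by exact_mod_cast Nat.factorial_pos _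
  have hF2 : ((m - 3).factorial : ℝ) = ((m : ℝ) - 3) * ((m - 4).factorial : ℝ) := by
    rw [show m - 3 = (m - 4) + 1 by omega, Nat.factorial_succ]
    push_cast
    rw [Nat.cast_sub (by omega)]
    push_cast
    ring
  have hm3 : (0 : ℝ) < (m : ℝ) - 3 := by linarith
  obtain ⟨base, hbase⟩ : ∃ base : ℝ, base = ((m + i - 5).factorial : ℝ) /
    (((m - 4).factorial : ℝ) * (m.factorial : ℝ) * ((i - 1).factorial : ℝ)) := ⟨_, rfl⟩
  have hb0 : 0 ≤ base := by
    rw [hbase]
    positivity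
  obtain ⟨G, hG⟩ : ∃ G : ℝ, G = 2 * ((m : ℝ) - 1) * ((m : ℝ) + 1) + ((i : ℝ) - 1) * ((i : ℝ) - 2) / 2 :=
    ⟨_, rfl⟩
  have hG0 : 0 ≤ G := by
    have h6 : 0 ≤ (m : ℝ) - 1 := by linarith
    have h7 : 0 ≤ (i : ℝ) - 1 := by linarith
    have h8 : 0 ≤ (i : ℝ) - 2 := by linarith
    rw [hG]
    positivity
  -- first part
  have p1 : |kh m (M + m) x (i - 1) * Rr B x (i - 1)| ≤
      base * ((3 * (m : ℝ) - 2) / ((m : ℝ) - 3) * |d - 1|) * etaR B x := by
    refine (term_one hm hi4 hiM hB hx hxi).trans (le_of_eq ?_)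
    rw [hF2, hbase, ← hd]
    field_simp
  -- second part
  have p2 : ∀ k ∈ range (A + 1), |kh m (M + m) x (i + k) * Rr B x (i + k)| ≤
      (base * muR m i * (((k : ℝ) + 1) * (|d| + k) * yR m i ^ (k + 1) / ((k + 2).factorial : ℝ)) +
      base * (G / (((m : ℝ) - 3) * ((m : ℝ) + 1))) *
        (((i - 3 + k).choose k : ℝ) * (|d| + k) / ((m : ℝ) + 2) ^ k)) * etaR B x := by
    intro k _
    refine (term_two hm hi4 hiM hB hx hxi k).trans ?_
    rw [← hd, ← hG]
    have q1 : (((m + i + k - 4).factorial : ℝ) * ((k : ℝ) + 1) /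
        (((m - 4).factorial : ℝ) * ((i - 1).factorial : ℝ) * ((k + 2).factorial : ℝ))) *
        ((|d| + k) / ((m + 1 + k).factorial : ℝ)) ≤
        base * (((k : ℝ) + 1) * (|d| + k) * yR m i ^ (k + 1) / ((k + 2).factorial : ℝ)) := by
      have r1 := fac_ratio (m := m) (i := i) (by omega) (k + 1) hi4
      rw [show m + i - 5 + (k + 1) = m + i + k - 4 by omega, show m + (k + 1) = m + 1 + k by omega] at r1
      have g1 : (0 : ℝ) < ((m + 1 + k).factorial : ℝ) := by exact_mod_cast Nat.factorial_pos _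
      have g2 : (0 : ℝ) < ((k + 2).factorial : ℝ) := by exact_mod_cast Nat.factorial_pos _
      have r2 : ((m + i + k - 4).factorial : ℝ) / ((m + 1 + k).factorial : ℝ) ≤
          ((m + i - 5).factorial : ℝ) * yR m i ^ (k + 1) / (m.factorial : ℝ) := by
        rw [div_le_div_iff₀ g1 hF4]
        linarith
      have e1 : (((m + i + k - 4).factorial : ℝ) * ((k : ℝ) + 1) /
          (((m - 4).factorial : ℝ) * ((i - 1).factorial : ℝ) * ((k + 2).factorial : ℝ))) *
          ((|d| + k) / ((m + 1 + k).factorial : ℝ)) =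
          (((m + i + k - 4).factorial : ℝ) / ((m + 1 + k).factorial : ℝ)) *
          (((k : ℝ) + 1) * (|d| + k) /
            (((m - 4).factorial : ℝ) * ((i - 1).factorial : ℝ) * ((k + 2).factorial : ℝ))) := by
        field_simp
      rw [e1]
      refine (mul_le_mul_of_nonneg_right r2 (by positivity)).trans (le_of_eq ?_)
      rw [hbase]
      field_simp
    have q2 : ((|d| + k) / ((m + 1 + k).factorial : ℝ)) ≤
        (|d| + k) / (((m + 1).factorial : ℝ) * ((m : ℝ) + 2) ^ k) := by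
      refine div_le_div_of_nonneg_left (by positivity) (by positivity) ?_
      have := Nat.factorial_mul_pow_le_factorial (m := m + 1) (n := k)
      have h9 : (((m + 1).factorial * (m + 1 + 1) ^ k : ℕ) : ℝ) ≤ ((m + 1 + k).factorial : ℝ) := by
        exact_mod_cast this
      push_cast at h9
      rwa [show (m : ℝ) + 1 + 1 = m + 2 by ring] at h9
    have hg0 : 0 ≤ ((m + i - 5).factorial : ℝ) / (((i - 1).factorial : ℝ) * ((m - 3).factorial : ℝ)) := by
      positivity
    calc (muR m i * (((m + i + k - 4).factorial : ℝ) * ((k : ℝ) + 1) /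
          (((m - 4).factorial : ℝ) * ((i - 1).factorial : ℝ) * ((k + 2).factorial : ℝ))) +
        (((m + i - 5).factorial : ℝ) / (((i - 1).factorial : ℝ) * ((m - 3).factorial : ℝ))) *
          (G * ((i - 3 + k).choose k : ℝ))) *
        (etaR B x * ((|d| + k) / ((m + 1 + k).factorial : ℝ)))
        = (muR m i * ((((m + i + k - 4).factorial : ℝ) * ((k : ℝ) + 1) /
          (((m - 4).factorial : ℝ) * ((i - 1).factorial : ℝ) * ((k + 2).factorial : ℝ))) *
          ((|d| + k) / ((m + 1 + k).factorial : ℝ))) +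
          ((((m + i - 5).factorial : ℝ) / (((i - 1).factorial : ℝ) * ((m - 3).factorial : ℝ))) *
          (G * ((i - 3 + k).choose k : ℝ))) * ((|d| + k) / ((m + 1 + k).factorial : ℝ))) *
          etaR B x := by ring
      _ ≤ (muR m i * (base * (((k : ℝ) + 1) * (|d| + k) * yR m i ^ (k + 1) /
          ((k + 2).factorial : ℝ))) +
          ((((m + i - 5).factorial : ℝ) / (((i - 1).factorial : ℝ) * ((m - 3).factorial : ℝ))) *
          (G * ((i - 3 + k).choose k : ℝ))) *
            ((|d| + k) / (((m + 1).factorial : ℝ) * ((m : ℝ) + 2) ^ k))) * etaR B x := by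
          refine mul_le_mul_of_nonneg_right (add_le_add ?_ ?_) heta
          · exact mul_le_mul_of_nonneg_left q1 hmu
          · exact mul_le_mul_of_nonneg_left q2 (by positivity)
      _ = _ := by
          rw [hF2, hbase, Nat.factorial_succ m]
          push_cast
          field_simp
  refine (add_le_add p1 (sum_le_sum p2)).trans ?_
  rw [← sum_mul, sum_add_distrib, ← mul_sum, ← mul_sum, ← add_mul]
  refine mul_le_mul_of_nonneg_right ?_ heta
  have hy : 1 ≤ yR m i := by
    unfold yR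
    have : 0 ≤ ((i - 5 : ℕ) : ℝ) / ((m : ℝ) + 1) := by positivity
    linarith
  have s1 : ∑ k ∈ range (A + 1), ((k : ℝ) + 1) * (|d| + k) * yR m i ^ (k + 1) /
      ((k + 2).factorial : ℝ) ≤ SAR (yR m i) (EyR m i) |d| :=
    (exp_part (A + 1) hy hD).trans (SAR_mono hy (exp_yR_le (by omega) i) hD)
  have s2 := geo_part (i - 3) m (A + 1) hD
  rw [show i - 3 + 1 = i - 2 by omega] at s2
  have ei : ((i - 3 : ℕ) : ℝ) + 1 = (i : ℝ) - 2 := by
    rw [Nat.cast_sub (by omega)]
    push_cast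
    ring
  rw [ei] at s2
  have t1 : base * muR m i * ∑ k ∈ range (A + 1), ((k : ℝ) + 1) * (|d| + k) * yR m i ^ (k + 1) /
      ((k + 2).factorial : ℝ) ≤ base * muR m i * SAR (yR m i) (EyR m i) |d| :=
    mul_le_mul_of_nonneg_left s1 (by positivity)
  have hGc : 0 ≤ G / (((m : ℝ) - 3) * ((m : ℝ) + 1)) := by positivity
  have t2 := mul_le_mul_of_nonneg_left s2 (by positivity :
    0 ≤ base * (G / (((m : ℝ) - 3) * ((m : ℝ) + 1))))
  have hGe : G / (((m : ℝ) - 3) * ((m : ℝ) + 1)) = 2 * ((m : ℝ) - 1) / ((m : ℝ) - 3) +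
      ((i : ℝ) - 1) * ((i : ℝ) - 2) / (2 * ((m : ℝ) - 3) * ((m : ℝ) + 1)) := by
    rw [hG]
    field_simp
  unfold BdR SrR
  rw [← hbase]
  rw [hGe] at t2 ⊢
  linarith

end Pool.JM.H5
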