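import Pool.Agent.Work.MP_46fa68_h5.RowFour3
import Pool.Agent.Work.MP_46fa68_h4.Lay2

/-!
# MP_46fa68_co: row 2 in the layer `i = 4`: the classes `(2,4)`, `(3,4)`, `(0,4)`
-/

set_option autoImplicit false

open Finset

namespace Pool.JM.H5

theorem kapA4 {m : ℕ} (hm : 16 ≤ m) :
    kapA m 4 * (((m - 3).factorial : ℝ) / (m.factorial : ℝ)) =
      (1 - cm m) * ((3 * (m : ℝ) + 1) / (6 * m)) := by
  have hmR : (16 : ℝ) ≤ m := by exact_mod_cast hm
  have e1 : (m.factorial : ℝ) = (m : ℝ) * ((m - 1).factorial : ℝ) := by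
    have h0 := fac_sub (m := m) (j := 0) (by omega)
    rw [Nat.sub_zero] at h0
    rw [h0]
    push_cast
    ring
  have e3 : (((4 - 1).factorial : ℕ) : ℝ) = 6 := by norm_num [Nat.factorial]
  have f0 : ((m - 3).factorial : ℝ) ≠ 0 := by exact_mod_cast Nat.factorial_ne_zero _
  have f1 : ((m - 1).factorial : ℝ) ≠ 0 := by exact_mod_cast Nat.factorial_ne_zero _
  unfold kapA g1m
  rw [show m + 4 - 5 = m - 1 by omega, e1, e3]
  generalize ((m - 3).factorial : ℝ) = F at f0 ⊢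
  generalize ((m - 1).factorial : ℝ) = G at f1 ⊢
  have n1 : (m : ℝ) ≠ 0 := by positivity
  field_simp

namespace R2

variable {m M b : ℕ} {d : ℝ} {B : Finset ℕ}

theorem T4_ge (h : R2 m M 4 b d B) (hm : 16 ≤ m) :
    (1 - cm m) * ((3 * (m : ℝ) + 1) / (6 * m)) ≤
      kapA m 4 * Rr (B.erase (tb B)) (M + m - 4) (4 - 1) := by
  have q := h.Q1_ge
  rw [show m + 1 - 4 = m - 3 by omega] at q
  rw [← kapA4 hm]
  exact mul_le_mul_of_nonneg_left q (kapA_nonneg (i := 4) hm)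

/-- **the class `(2, 4)`** -/
theorem class_24 (h : R2 m M 4 b 2 B) (hm : 21 ≤ m) {A : ℕ} (hA : 4 ≤ A) :
    149 / 500 ≤ 1 - Cr m A (M + m) B (tb B) - Cr m A (M + m) B (M + m - 4) := by
  have hmR : (21 : ℝ) ≤ m := by exact_mod_cast hm
  -- row 1
  obtain ⟨k, hk⟩ : ∃ k, M = k + 1 := ⟨M - 1, by have := h.hM; omega⟩
  subst hk
  have ht : tb B = k + 1 + (m - 2) := by
    have h1 := h.hd
    have h2 : (tb B : ℝ) + 2 = ((k + 1 : ℕ) : ℝ) + m := by linarith
    have h3 : tb B + 2 = (k + 1) + m := by exact_mod_cast h2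
    omega
  have hx : k + 1 + m - 4 = k + (m - 3) := by omega
  have hT := h.hT
  have hxm := h.hx
  have hmax := h.hmax
  have hB := h.hB
  have hc0 : (B.erase (tb B)).card = k + 1 := by
    rw [card_erase_of_mem hT, (Lv_spec hB).1]
    omega
  have hb0 : ∀ y ∈ B.erase (tb B), y < tb B := fun y hy =>
    lt_of_le_of_ne (mem_le_tb (mem_of_mem_erase hy)) (ne_of_mem_erase hy)
  rw [ht] at hc0 hb0
  have hxm' := hxm
  have hmax' := hmax
  rw [ht, hx] at hxm' hmax'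
  have r1 := layer_two (m := m) (A := A) (by omega) (by omega) hc0 hb0 hxm' hmax'
  rw [← ht] at r1
  -- row 2
  have r2 := h.lower_even (A := A) (by omega) hA (by decide) (U := S40 m (g1m m) (g2m m) 2 +
    S41 m (g1m m) (g2m m) 2 + 5 / 3 * (al4 2 + be4 m 2)) (by
      have e0 : ((4 : ℕ) : ℝ) = 4 := by norm_num
      rw [e0]
      exact sum4_le h hm (Or.inr (Or.inl rfl)) _)
  have t := h.T4_ge (by omega)
  have e1 : ((2 : ℝ) - 1) / (((4 : ℕ) : ℝ) - 2) = 1 / 2 := by norm_num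
  rw [e1] at r2
  have e3 : (((m - 3 : ℕ)) : ℝ) = (m : ℝ) - 3 := by
    rw [Nat.cast_sub (by omega)]
    norm_num
  rw [e3, show (m : ℝ) - 1 - (m - 3) = 2 by ring] at r1
  have key := split24 (m : ℝ) (cm m)
  have hg1 : g1m m = -(1 - cm m) * (3 * (m : ℝ) + 1) := rfl
  have hg2 : g2m m = (1 - cm m) * (2 * (m : ℝ) * (m + 1)) := rfl
  rw [hg1, hg2] at r2
  have hF := F24 hmR
  have hY := Y24_le hmR
  have hcm := cm_ge (m := m) (by omega)
  have h9 : 1 / (m : ℝ) + (1 - 1 / (m : ℝ)) * Y24 m ≤ cm m + (1 - cm m) * Y24 m := by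
    nlinarith
  have e5 : (m : ℝ) * 2 = 2 * m := by ring
  rw [e5] at r1
  have e6 : (1 - cm m) * ((3 * (m : ℝ) + 1) / (12 * m)) =
      (1 - cm m) * ((3 * (m : ℝ) + 1) / (6 * m)) * (1 / 2) := by
    have : (m : ℝ) ≠ 0 := by positivity
    field_simp
    ring
  rw [e6] at key
  linarith

/-- **the class `(3, 4)`** -/
theorem class_34 (h : R2 m M 4 b 3 B) (hm : 21 ≤ m) {A : ℕ} (hA : 4 ≤ A) :
    -(39 / 100) ≤ -Cr m A (M + m) B (M + m - 4) := by
  have hmR : (21 : ℝ) ≤ m := by exact_mod_cast hm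
  have r2 := h.lower_even (A := A) (by omega) hA (by decide) (U := S40 m (g1m m) (g2m m) 3 +
    S41 m (g1m m) (g2m m) 3 + 5 / 3 * (al4 3 + be4 m 3)) (by
      have e0 : ((4 : ℕ) : ℝ) = 4 := by norm_num
      rw [e0]
      exact sum4_le h hm (Or.inr (Or.inr rfl)) _)
  have t := h.T4_ge (by omega)
  have e1 : ((3 : ℝ) - 1) / (((4 : ℕ) : ℝ) - 3) = 2 := by norm_num
  rw [e1] at r2
  have key := split34 (m : ℝ) (cm m)
  have hg1 : g1m m = -(1 - cm m) * (3 * (m : ℝ) + 1) := rfl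
  have hg2 : g2m m = (1 - cm m) * (2 * (m : ℝ) * (m + 1)) := rfl
  rw [hg1, hg2] at r2
  have hZ := Z34_le hmR
  have hY := Y34_nonneg hmR
  have hcm := cm_le' (m := m) (by omega)
  have h9 : 0 ≤ (1 - cm m) * Y34 m := mul_nonneg (by linarith) hY
  have e6 : (1 - cm m) * ((3 * (m : ℝ) + 1) / (3 * m)) =
      (1 - cm m) * ((3 * (m : ℝ) + 1) / (6 * m)) * 2 := by
    have : (m : ℝ) ≠ 0 := by positivity
    field_simp
    ring
  rw [e6] at key
  linarith

/-- **the class `(0, 4)`** -/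
theorem class_04 (h : R2 m M 4 b 0 B) (hm : 21 ≤ m) {A : ℕ} (hA : 4 ≤ A) :
    |Cr m A (M + m) B (M + m - 4)| ≤ 139 / 1000 := by
  have hmR : (21 : ℝ) ≤ m := by exact_mod_cast hm
  have r2 := h.neg_Cr (A := A) (by omega) hA
  rw [show ((-1 : ℝ)) ^ 4 = 1 by norm_num, one_mul] at r2
  have e0 : ((4 : ℕ) : ℝ) = 4 := by norm_num
  rw [e0] at r2
  have hsum := sum4_le h hm (Or.inl rfl) (A + 1 - 4)
  have hs0 : 0 ≤ ∑ k ∈ range (A + 1 - 4), kapB m 4 k * ((0 + (k : ℝ)) / (4 - 0)) *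
      Rr (B.erase (tb B)) (M + m - 4) (4 + k) := by
    refine sum_nonneg fun k _ => ?_
    have hB := kapB_nonneg (i := 4) (by omega : 16 ≤ m) (by norm_num) (by omega) k
    have hq := h.Qpos (4 + k)
    have hw : (0 : ℝ) ≤ (0 + (k : ℝ)) / (4 - 0) := by
      have : (0 : ℝ) ≤ (k : ℝ) := Nat.cast_nonneg k
      rw [zero_add, sub_zero]
      positivity
    positivity
  -- the first term
  have hab := h.hab_near (by omega)
  have q := h.Q1_le hab
  have q' : Rr (B.erase (tb B)) (M + m - 4) (4 - 1) ≤ ((m - 3).factorial : ℝ) / (m.factorial : ℝ) := by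
    refine q.trans (le_of_eq ?_)
    have e1 : ((m - 2).factorial : ℝ) = ((m : ℝ) - 2) * ((m - 3).factorial : ℝ) := by
      rw [fac_sub (j := 2) (by omega)]
      push_cast
      ring
    have f0 : ((m - 3).factorial : ℝ) ≠ 0 := by exact_mod_cast Nat.factorial_ne_zero _
    have f1 : (m.factorial : ℝ) ≠ 0 := by exact_mod_cast Nat.factorial_ne_zero _
    rw [show m + 2 - 4 = m - 2 by omega, e1, fac_m, e0]
    generalize ((m - 3).factorial : ℝ) = F at f0 ⊢
    generalize (m.factorial : ℝ) = G at f1 ⊢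
    rw [show (m : ℝ) + 5 - 4 - 0 = m + 1 by ring, show (m : ℝ) + 6 - 2 * 4 - 0 = m - 2 by ring]
    have n1 : (m : ℝ) - 2 ≠ 0 := by
      have : (0 : ℝ) < (m : ℝ) - 2 := by linarith
      exact this.ne'
    field_simp
  have hA0 := kapA_nonneg (i := 4) (by omega : 16 ≤ m)
  have t := mul_le_mul_of_nonneg_left q' hA0
  rw [kapA4 (by omega)] at t
  have t0 : 0 ≤ kapA m 4 * Rr (B.erase (tb B)) (M + m - 4) (4 - 1) :=
    mul_nonneg hA0 (h.Qpos _)
  have e1 : ((0 : ℝ) - 1) / (4 - 0) = -(1 / 4) := by norm_num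
  rw [e1] at r2
  have key := split04 (m : ℝ) (cm m)
  have hg1 : g1m m = -(1 - cm m) * (3 * (m : ℝ) + 1) := rfl
  have hg2 : g2m m = (1 - cm m) * (2 * (m : ℝ) * (m + 1)) := rfl
  rw [hg1, hg2] at hsum
  have hF := F04 hmR
  have hY := Y04_nonneg hmR
  have hcm := cm_ge (m := m) (by omega)
  have h9 : (1 - cm m) * Y04 m ≤ (1 - 1 / (m : ℝ)) * Y04 m :=
    mul_le_mul_of_nonneg_right (by linarith) hY
  have e6 : (1 - cm m) * ((3 * (m : ℝ) + 1) / (24 * m)) =
      (1 - cm m) * ((3 * (m : ℝ) + 1) / (6 * m)) * (1 / 4) := by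
    have : (m : ℝ) ≠ 0 := by positivity
    field_simp
    ring
  rw [e6] at key
  rw [abs_le]
  constructor
  · nlinarith
  · nlinarith

end R2

end Pool.JM.H5
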