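import Pool.Agent.Work.MP_46fa68_99.Comb
import Pool.Agent.Work.MP_46fa68_h5.RowFour4
import Pool.Agent.Work.MP_46fa68_62.NNb
import Pool.Agent.Work.MP_46fa68_81.Adj

/-!
# MP_46fa68_co: row 2 near the wall: the assembly
-/

set_option autoImplicit false

open Finset

namespace Pool.JM

/-- the bridge: row 2 is bounded by the numbers `Nn` (`i ≥ 4`) -/
def Stmt_BR (m : ℕ) : Prop := ∀ A M : ℕ, 1 ≤ M → ∀ B ∈ Lv (M + 1) (m + (m - 3)),
  3 * (M + m - sb B) ≤ m + 6 → sb B + 4 ≤ M + m →
    |Cr m A (M + m) B (sb B)| ≤ Nn m (M + m - sb B) ((M : ℝ) + m - tb B)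

/-- the adjacent class `(d, i)`, lower bound `-1/20` (below the wall) or `-1/10` -/
def Stmt_CL (m d i : ℕ) (t : ℝ) : Prop := ∀ A M : ℕ, m ≤ A → 1 ≤ M →
  ∀ B ∈ Lv (M + 1) (m + (m - 3)), tb B + d = M + m → sb B + i = M + m →
    3 * i ≤ m + 6 → -t ≤ -Cr m A (M + m) B (sb B)

/-- the class `(-1, 5)` beyond the wall -/
def Stmt_CB (m : ℕ) : Prop := ∀ A M : ℕ, m ≤ A → 1 ≤ M →
  ∀ B ∈ Lv (M + 1) (m + (m - 3)), tb B = M + m + 1 → sb B + 5 = M + m →
    |Cr m A (M + m) B (sb B)| ≤ 44 / 1000

open H5 in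
theorem NEARU_of {m : ℕ} (hm : 21 ≤ m) (hBR : Stmt_BR m)
    (h45 : Stmt_CL m 4 5 (3 / 25)) (h46 : Stmt_CL m 4 6 (3 / 25)) (h56 : Stmt_CL m 5 6 (3 / 25))
    (h67 : Stmt_CL m 6 7 (3 / 25)) (h78 : Stmt_CL m 7 8 (3 / 25)) (h89 : Stmt_CL m 8 9 (3 / 25)) :
    Stmt_NEARU m := by
  refine ⟨m, fun A hA M hM B hB hw hn => ?_⟩
  have hM1 : 1 ≤ M := by omega
  obtain ⟨i, b, h⟩ := exists_R2 (by omega : 3 ≤ m) hM1 hB
  have hsb : sb B = M + m - i := y_eq h
  have him := h.him
  have hi3 := h.hi3
  have hi : M + m = sb B + i := by omega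
  have hii : M + m - sb B = i := by omega
  have hn' : 3 * i ≤ m + 6 := by rw [hii] at hn; exact hn
  obtain ⟨d, hd⟩ : ∃ d, M + m = tb B + d := ⟨M + m - tb B, by omega⟩
  have hdR : (M : ℝ) + m - tb B = d := by
    have : (M : ℝ) + m = tb B + d := by exact_mod_cast hd
    linarith
  rw [hdR] at h
  have hdi : d + 1 ≤ i := by
    have := h.hdi
    exact_mod_cast this
  have hbr : 4 ≤ i → |Cr m A (M + m) B (sb B)| ≤ Nn m i d := by
    intro h4
    have := hBR A M hM1 B hB hn (by omega)
    rwa [hii, hdR] at this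
  have hle := le_abs_self (Cr m A (M + m) B (sb B))
  refine ⟨fun h1 => ?_, fun h1 h2 => ?_, fun h1 h2 => ?_, fun h1 j hj h2 => ?_, fun h1 => ?_,
    fun h1 => ?_⟩
  · obtain rfl : d = 1 := by omega
    rcases Nat.lt_or_ge i 4 with h4 | h4
    · obtain rfl : i = 3 := by omega
      push_cast at h
      have := h.low_13 (A := A) (by omega) (by omega)
      rw [← hsb] at this
      linarith
    · have h5 := hbr h4
      have h6 := blk_NN1 m i hm h4 hn'
      push_cast at h5
      linarith
  · obtain rfl : d = 2 := by omega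
    obtain rfl : i = 3 := by omega
    push_cast at h
    have := h.low_23 (A := A) (by omega) (by omega)
    rw [← hsb] at this
    linarith
  · obtain rfl : d = 2 := by omega
    obtain rfl : i = 4 := by omega
    push_cast at h
    have := h.class_24 (A := A) hm (by omega)
    rw [← hsb] at this
    linarith
  · obtain rfl : d = 2 := by omega
    obtain rfl : i = j := by omega
    rcases Nat.lt_or_ge i 6 with h6 | h6
    · obtain rfl : i = 5 := by omega
      push_cast at h
      have := h.low_odd (A := A) (by omega) (by omega) (by decide) (by omega) (by norm_num)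
      rw [← hsb] at this
      have h7 := T1u_52 hm
      have e : (1 : ℝ) / (4 * (((5 : ℕ) : ℝ) - 2)) = 1 / 12 := by norm_num
      rw [e]
      linarith
    · have h5 := hbr (by omega)
      have h8 := blk_NN2 m i hm h6 hn'
      push_cast at h5
      linarith
  · obtain rfl : d = 3 := by omega
    rcases Nat.lt_or_ge i 6 with h6 | h6
    · rcases (by omega : i = 4 ∨ i = 5) with rfl | rfl
      · push_cast at h
        have := h.class_34 (A := A) hm (by omega)
        rw [← hsb] at this
        linarith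
      · push_cast at h
        have := h.low_odd (A := A) (by omega) (by omega) (by decide) (by omega) (by norm_num)
        rw [← hsb] at this
        have h7 := T1u_53 hm
        linarith
    · have h5 := hbr (by omega)
      have h8 := blk_NN3 m i hm h6 hn'
      push_cast at h5
      linarith
  · have hd4 : 4 ≤ d := by omega
    by_cases hc : 7 ≤ i ∧ d + 2 ≤ i
    · have h5 := hbr (by omega)
      have h8 := blk_NN4 m i d hm hc.1 hn' hd4 hc.2
      linarith
    · by_cases hc2 : 10 ≤ i ∧ d + 1 = i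
      · have h5 := hbr (by omega)
        have h8 := blk_NN5 m i d hm hc2.1 hn' hc2.2
        linarith
      · rcases (by omega : (d = 4 ∧ i = 5) ∨ (d = 4 ∧ i = 6) ∨ (d = 5 ∧ i = 6) ∨ (d = 6 ∧ i = 7) ∨
          (d = 7 ∧ i = 8) ∨ (d = 8 ∧ i = 9)) with ⟨rfl, rfl⟩ | ⟨rfl, rfl⟩ | ⟨rfl, rfl⟩ | ⟨rfl, rfl⟩ |
            ⟨rfl, rfl⟩ | ⟨rfl, rfl⟩
        · have := h45 A M hA hM1 B hB hd.symm hi.symm hn'
          linarith
        · have := h46 A M hA hM1 B hB hd.symm hi.symm hn'
          linarith
        · have := h56 A M hA hM1 B hB hd.symm hi.symm hn'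
          linarith
        · have := h67 A M hA hM1 B hB hd.symm hi.symm hn'
          linarith
        · have := h78 A M hA hM1 B hB hd.symm hi.symm hn'
          linarith
        · have := h89 A M hA hM1 B hB hd.symm hi.symm hn'
          linarith

open H5 in
theorem NEARB_of {m : ℕ} (hm : 21 ≤ m) (hBR : Stmt_BR m) (hCB : Stmt_CB m) : Stmt_NEARB m := by
  refine ⟨m, fun A hA M hM B hB hw hn => ?_⟩
  have hM1 : 1 ≤ M := by omega
  obtain ⟨i, b, h⟩ := exists_R2 (by omega : 3 ≤ m) hM1 hB
  have hsb : sb B = M + m - i := y_eq h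
  have him := h.him
  have hi3 := h.hi3
  have hi : M + m = sb B + i := by omega
  have hii : M + m - sb B = i := by omega
  have hn' : 3 * i ≤ m + 6 := by rw [hii] at hn; exact hn
  obtain ⟨e, he⟩ : ∃ e, tb B = M + m + e := ⟨tb B - (M + m), by omega⟩
  have hdR : (M : ℝ) + m - tb B = -(e : ℝ) := by
    have : (tb B : ℝ) = M + m + e := by exact_mod_cast he
    linarith
  rw [hdR] at h
  have hbi : b + 4 + e = i := by
    have h1 := h.hbd
    have h2 : (b : ℝ) + 4 + e = i := by linarith
    exact_mod_cast h2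
  have hbr : 4 ≤ i → |Cr m A (M + m) B (sb B)| ≤ Nn m i (-(e : ℝ)) := by
    intro h4
    have := hBR A M hM1 B hB hn (by omega)
    rwa [hii, hdR] at this
  refine ⟨fun h1 => ?_, fun h1 => ?_, fun j hj h1 => ?_⟩
  · obtain rfl : i = 4 := by omega
    obtain rfl : e = 0 := by omega
    rw [Nat.cast_zero, neg_zero] at h
    have := h.class_04 (A := A) hm (by omega)
    rw [← hsb] at this
    exact this
  · obtain rfl : i = 5 := by omega
    rcases (by omega : e = 0 ∨ e = 1) with rfl | rfl
    · have h5 := hbr (by omega)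
      rw [Nat.cast_zero, neg_zero] at h5
      have h6 := blk_NN7 m hm
      linarith
    · exact hCB A M hA hM1 B hB he (by omega)
  · obtain rfl : i = j := by omega
    exact (hbr (by omega)).trans (blk_NN6 m i e hm hj hn' (by omega))

end Pool.JM
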