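import Pool.Agent.Work.MP_46fa68_h5.RowDefs

/-!
# MP_46fa68_co: row 2 near the wall (`3 i ≤ m + 6`): the numerical statements

`Nn m i d` = the bound ROWB for row 2 with `hk ≤ (m + 2 - i)! / D`, `D = m + 6 - 2 i - d` (= `a - b + 1`),
`da = i - d`.  All are true for `m ≥ 21` (checked for `m ≤ 200`, 250, 300, 400, 600, 1000, 2000); the
maxima of `Nn / bound` are: NN1 .88 (m = 21, i = 4), NN2 .69 (21, 6), NN3 .79 (21, 6), NN4 .906 (21, 7, 5),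
NN5 .234 (24, 10), NN6 .911 (21, 6, d = -2), NN7 .983 (21).
-/

set_option autoImplicit false

open Finset

namespace Pool.JM

noncomputable def Nn (m i : ℕ) (d : ℝ) : ℝ :=
  BdR m i d * ((m + 2 - i).factorial : ℝ) / (((m : ℝ) + 6 - 2 * i - d) * ((i : ℝ) - d))

def Stmt_NN1 : Prop := ∀ m i : ℕ, 21 ≤ m → 4 ≤ i → 3 * i ≤ m + 6 → Nn m i 1 ≤ 1 / 4

def Stmt_NN2 : Prop := ∀ m i : ℕ, 21 ≤ m → 6 ≤ i → 3 * i ≤ m + 6 →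
  Nn m i 2 ≤ 1 / (4 * ((i : ℝ) - 2))

def Stmt_NN3 : Prop := ∀ m i : ℕ, 21 ≤ m → 6 ≤ i → 3 * i ≤ m + 6 → Nn m i 3 ≤ 1 / 8

def Stmt_NN4 : Prop := ∀ m i d : ℕ, 21 ≤ m → 7 ≤ i → 3 * i ≤ m + 6 → 4 ≤ d → d + 2 ≤ i →
  Nn m i d ≤ 1 / 10

def Stmt_NN5 : Prop := ∀ m i d : ℕ, 21 ≤ m → 10 ≤ i → 3 * i ≤ m + 6 → d + 1 = i →
  Nn m i d ≤ 1 / 10

def Stmt_NN6 : Prop := ∀ m i e : ℕ, 21 ≤ m → 6 ≤ i → 3 * i ≤ m + 6 → e + 4 ≤ i →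
  Nn m i (-(e : ℝ)) ≤ 1 / 20 * (3 / 4) ^ (i - 4)

def Stmt_NN7 : Prop := ∀ m : ℕ, 21 ≤ m → Nn m 5 0 ≤ 1 / 25

end Pool.JM
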