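import Pool.Agent.Work.MP_46fa68_h5.RowDefs
import Pool.Agent.Work.MP_46fa68_11.Rows

/-!
# MP_46fa68_co: ROWB, part 1: the ratio of one move of a bead `x ≠ tb B`

`|Rr B x p| ≤ etaR B x * |x + p - tb B| / (x + p - (M - 1))!` for `B` with `M + 1` beads.
-/

set_option autoImplicit false

open Finset

namespace Pool.JM.H5

theorem mem_le_tb {B : Finset ℕ} {y : ℕ} (hy : y ∈ B) : y ≤ tb B :=
  le_sup (f := id) hy

theorem tb_memB {B : Finset ℕ} (hB : B.Nonempty) : tb B ∈ B := by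
  obtain ⟨x, hx, h⟩ := exists_mem_eq_sup B hB id
  have : tb B = x := h
  rw [this]
  exact hx

theorem prod_sub_le (X : ℕ) : ∀ (k : ℕ) (S : Finset ℕ), S.card = k → (∀ y ∈ S, y < X) →
    ∏ y ∈ S, ((X : ℝ) - y) ≤ ∏ y ∈ range k, ((X : ℝ) - y)
  | 0, S, hc, _ => by
    rw [card_eq_zero] at hc
    subst hc
    simp
  | k + 1, S, hc, h => by
    obtain ⟨y1, hy1, hk⟩ : ∃ y ∈ S, k ≤ y := by
      by_contra hcon
      push Not at hcon
      have h1 : S ⊆ range k := fun y hy => mem_range.2 (hcon y hy)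
      have := card_le_card h1
      rw [card_range, hc] at this
      omega
    rw [← mul_prod_erase S _ hy1, prod_range_succ, mul_comm]
    have ih := prod_sub_le X k (S.erase y1) (by rw [card_erase_of_mem hy1, hc]; omega)
      (fun y hy => h y (mem_of_mem_erase hy))
    have h0 : 0 ≤ ∏ y ∈ S.erase y1, ((X : ℝ) - y) := prod_nonneg fun y hy => by
      have : (y : ℝ) < X := by exact_mod_cast h y (mem_of_mem_erase hy)
      linarith
    have h1 : (y1 : ℝ) < X := by exact_mod_cast h y1 hy1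
    have h2 : (k : ℝ) ≤ y1 := by exact_mod_cast hk
    exact mul_le_mul ih (by linarith) (by linarith) (h0.trans ih)

theorem prod_range_sub (X k : ℕ) (hk : k ≤ X) :
    ∏ y ∈ range k, ((X : ℝ) - y) = (X.factorial : ℝ) / ((X - k).factorial : ℝ) := by
  have e1 : ∏ y ∈ range k, ((X : ℝ) - y) = (X.descFactorial k : ℝ) := by
    rw [Nat.descFactorial_eq_prod_range]
    push_cast
    refine prod_congr rfl fun y hy => ?_
    have := mem_range.1 hy
    rw [Nat.cast_sub (by omega)]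
  have h2 := Nat.factorial_mul_descFactorial hk
  rw [e1, eq_div_iff (by exact_mod_cast Nat.factorial_ne_zero _), mul_comm]
  exact_mod_cast h2

/-- the other beads are far from the wall -/
theorem other_lt {m M : ℕ} (hm : 3 ≤ m) {B : Finset ℕ} (hB : B ∈ Lv (M + 1) (m + (m - 3))) {y : ℕ}
    (hy : y ∈ B.erase (tb B)) : y + 3 ≤ M + m := by
  obtain ⟨h1, h2⟩ := mem_erase.1 hy
  have h3 := upr_mul_ln hB h2
  have h4 := pos_eq hB h2
  have h5 : 1 ≤ upr B y := by
    unfold upr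
    have h6 : y ≤ tb B := mem_le_tb h2
    have h7 : tb B ∈ B := tb_memB ⟨y, h2⟩
    exact card_pos.2 ⟨tb B, mem_filter.2 ⟨h7, by omega⟩⟩
  have h6 : 2 * ln B y ≤ (upr B y + 1) * ln B y := Nat.mul_le_mul_right _ (by omega)
  omega

/-- **The ratio of a move of a bead `x ≠ tb B`.** -/
theorem Rr_le_eta {m M : ℕ} (hm : 3 ≤ m) {B : Finset ℕ} (hB : B ∈ Lv (M + 1) (m + (m - 3))) {x : ℕ}
    (hx : x ∈ B.erase (tb B)) {p : ℕ} (hp : M + m ≤ x + p + 1) :
    |Rr B x p| ≤ etaR B x * (|((x + p : ℕ) : ℝ) - tb B| / ((x + p + 1 - M).factorial : ℝ)) := by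
  obtain ⟨hxT, hxB⟩ := mem_erase.1 hx
  have hT : tb B ∈ B := tb_memB ⟨x, hxB⟩
  have hTx : tb B ∈ B.erase x := mem_erase.2 ⟨fun h => hxT h.symm, hT⟩
  have hc := (Lv_spec hB).1
  have hM : 1 ≤ M := by
    have : 1 < B.card := Finset.one_lt_card.2 ⟨x, hxB, tb B, hT, hxT⟩
    omega
  obtain ⟨X, hX⟩ : ∃ X, X = x + p := ⟨_, rfl⟩
  have hcard : ((B.erase x).erase (tb B)).card = M - 1 := by
    rw [card_erase_of_mem hTx, card_erase_of_mem hxB, hc]
    omega
  have hlt : ∀ y ∈ (B.erase x).erase (tb B), y < X := by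
    intro y hy
    obtain ⟨h1, h2⟩ := mem_erase.1 hy
    have := other_lt hm hB (mem_erase.2 ⟨h1, mem_of_mem_erase h2⟩)
    omega
  have h1 := prod_sub_le X (M - 1) _ hcard hlt
  rw [prod_range_sub X (M - 1) (by omega), show X - (M - 1) = x + p + 1 - M by omega] at h1
  have f1 : (0 : ℝ) < (X.factorial : ℝ) := by exact_mod_cast X.factorial_pos
  have f2 : (0 : ℝ) < (x.factorial : ℝ) := by exact_mod_cast x.factorial_pos
  have f3 : (0 : ℝ) < ((x + p + 1 - M).factorial : ℝ) := by exact_mod_cast Nat.factorial_pos _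
  have f4 : 0 < ∏ y ∈ B.erase x, |(x : ℝ) - y| := by
    refine prod_pos fun y hy => abs_pos.2 ?_
    rw [sub_ne_zero]
    intro h
    exact (ne_of_mem_erase hy) (Nat.cast_injective h).symm
  have e1 : |Rr B x p| = etaR B x * ((∏ y ∈ B.erase x, |(X : ℝ) - y|) / X.factorial) := by
    unfold Rr etaR
    rw [abs_mul, abs_prod, abs_of_nonneg (by positivity :
      (0 : ℝ) ≤ (x.factorial : ℝ) / ((x + p).factorial : ℝ)), hX]
    have e2 : ∏ y ∈ B.erase x, |((x : ℝ) + p - y) / ((x : ℝ) - y)| =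
        (∏ y ∈ B.erase x, |((x + p : ℕ) : ℝ) - y|) / ∏ y ∈ B.erase x, |(x : ℝ) - y| := by
      rw [← prod_div_distrib]
      refine prod_congr rfl fun y _ => ?_
      rw [abs_div]
      push_cast
      rfl
    rw [e2]
    rw [hX] at f1
    field_simp
  have e3 : ∏ y ∈ B.erase x, |(X : ℝ) - y| = |(X : ℝ) - tb B| *
      ∏ y ∈ (B.erase x).erase (tb B), ((X : ℝ) - y) := by
    rw [← mul_prod_erase (B.erase x) _ hTx]
    congr 1
    refine prod_congr rfl fun y hy => abs_of_pos ?_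
    have : (y : ℝ) < X := by exact_mod_cast hlt y hy
    linarith
  have h5 : 0 ≤ etaR B x := by
    unfold etaR
    positivity
  rw [← hX] at h1 f3
  rw [e1, e3, ← hX]
  refine mul_le_mul_of_nonneg_left ?_ h5
  rw [div_le_div_iff₀ f1 f3]
  have h6 : 0 ≤ |(X : ℝ) - tb B| := abs_nonneg _
  calc |(X : ℝ) - tb B| * (∏ y ∈ (B.erase x).erase (tb B), ((X : ℝ) - y)) *
        ((X + 1 - M).factorial : ℝ)
      ≤ |(X : ℝ) - tb B| * ((X.factorial : ℝ) / ((X + 1 - M).factorial : ℝ)) *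
        ((X + 1 - M).factorial : ℝ) :=
        mul_le_mul_of_nonneg_right (mul_le_mul_of_nonneg_left h1 h6) f3.le
    _ = _ := by field_simp

end Pool.JM.H5
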