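import Pool.Agent.Work.MP_46fa68_h5.RowA

/-!
# MP_46fa68_co: ROWB, part 2: the coefficients of the kernel in the layers `i ≥ 3`
-/

set_option autoImplicit false

open Finset

namespace Pool.JM.H5

theorem coeff_layer (i k : ℕ) (hi : 3 ≤ i) (g1 g2 : ℝ) :
    PowerSeries.coeff (i + k) (PowerSeries.X ^ (i - 2) * Ig ^ (i - 2) * Gq g1 g2) =
      ((i - 1 + k).choose (k + 2) : ℝ) + g1 * ((i - 2 + k).choose (k + 1) : ℝ) +
        g2 * ((i - 3 + k).choose k : ℝ) := by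
  rw [mul_assoc, mul_comm (Ig ^ (i - 2)), PowerSeries.coeff_X_pow_mul', if_pos (by omega),
    show i + k - (i - 2) = k + 2 by omega, coeff_Gq_mul, if_pos (by omega), if_pos (by omega),
    show k + 2 - 1 = k + 1 by omega, show k + 2 - 2 = k by omega, coeff_Ig, coeff_Ig, coeff_Ig,
    show i - 2 + (k + 2) - 1 = i - 1 + k by omega, show i - 2 + (k + 1) - 1 = i - 2 + k by omega,
    show i - 2 + k - 1 = i - 3 + k by omega]

theorem coeff_layer1 (i : ℕ) (hi : 3 ≤ i) (g1 g2 : ℝ) :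
    PowerSeries.coeff (i - 1) (PowerSeries.X ^ (i - 2) * Ig ^ (i - 2) * Gq g1 g2) =
      ((i : ℝ) - 2) + g1 := by
  rw [mul_assoc, mul_comm (Ig ^ (i - 2)), PowerSeries.coeff_X_pow_mul', if_pos (by omega),
    show i - 1 - (i - 2) = 1 by omega, coeff_Gq_mul, if_pos (by omega), if_neg (by omega),
    Nat.sub_self, coeff_Ig, coeff_Ig, show i - 2 + 1 - 1 = i - 2 by omega, Nat.choose_one_right,
    Nat.choose_zero_right, Nat.cast_sub (by omega)]
  push_cast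
  ring

/-- the coefficient `A` of the binomial part -/
noncomputable def Abin (t i p : ℕ) : ℝ :=
  ((t + p - 1).choose p : ℝ) * (((p - 1).choose (i - 2) : ℝ) -
    ((t : ℝ) + i - 2) / (t * ((i : ℝ) - 1)) * (p.choose (i - 2) : ℝ))

/-- **n ≥ 2** -/
theorem kh_two {m i M0 : ℕ} (hm : 4 ≤ m) (hi : 3 ≤ i) (hM : i ≤ M0) (k : ℕ) :
    kh m M0 (M0 - i) (i + k) = -(-1) ^ i * (Abin (m - 3) i (i + k) +
      (((m - 3 + i - 2).choose (i - 1) : ℝ) / ((m - 3 : ℕ) : ℝ)) *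
        (((i - 1 + k).choose (k + 2) : ℝ) + g1m m * ((i - 2 + k).choose (k + 1) : ℝ) +
          g2m m * ((i - 3 + k).choose k : ℝ))) := by
  unfold kh vm
  rw [kf_layer (by omega) _ _ (by omega) hM, coeff_layer i k hi, if_neg (by omega)]
  unfold Abin
  ring

/-- **n = 1** -/
theorem kh_one {m i M0 : ℕ} (hm : 4 ≤ m) (hi : 3 ≤ i) (hM : i ≤ M0) :
    kh m M0 (M0 - i) (i - 1) = -(-1) ^ i *
      ((((m - 3 + i - 2).choose (i - 1) : ℝ) / ((m - 3 : ℕ) : ℝ)) * g1m m) := by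
  obtain ⟨t, rfl⟩ : ∃ t, m = t + 3 := ⟨m - 3, by omega⟩
  obtain ⟨j, rfl⟩ : ∃ j, i = j + 2 := ⟨i - 2, by omega⟩
  have ht : (t : ℝ) ≠ 0 := by
    have : t ≠ 0 := by omega
    exact_mod_cast this
  have hj : (j : ℝ) + 1 ≠ 0 := by positivity
  unfold kh vm
  rw [kf_layer (by omega) _ _ (by omega) hM, coeff_layer1 _ hi, if_neg (by omega),
    Nat.add_sub_cancel, Nat.add_sub_cancel]
  rw [show t + (j + 2 - 1) - 1 = t + j by omega, show j + 2 - 1 - 1 = j by omega,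
    show j + 2 - 1 = j + 1 by omega, show t + (j + 2) - 2 = t + j by omega, Nat.choose_self,
    Nat.choose_succ_self_right]
  push_cast
  rw [show (j : ℝ) + 2 - 1 = j + 1 by ring]
  field_simp
  ring

/-! ## the factorial forms -/

/-- `C(t+i-2, i-1)/t = (m+i-5)!/((i-1)! (m-3)!)` -/
theorem gR_eq {m i : ℕ} (hm : 4 ≤ m) (hi : 2 ≤ i) :
    ((m - 3 + i - 2).choose (i - 1) : ℝ) / ((m - 3 : ℕ) : ℝ) =
      ((m + i - 5).factorial : ℝ) / (((i - 1).factorial : ℝ) * ((m - 3).factorial : ℝ)) := by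
  obtain ⟨t, rfl⟩ : ∃ t, m = t + 4 := ⟨m - 4, by omega⟩
  obtain ⟨j, rfl⟩ : ∃ j, i = j + 2 := ⟨i - 2, by omega⟩
  rw [show t + 4 - 3 + (j + 2) - 2 = t + (j + 1) by omega, show j + 2 - 1 = j + 1 by omega,
    show t + 4 + (j + 2) - 5 = t + (j + 1) by omega, show t + 4 - 3 = t + 1 by omega,
    Nat.factorial_succ t]
  have h := Nat.add_choose_mul_factorial_mul_factorial t (j + 1)
  have h2 : (((t + (j + 1)).choose (j + 1) : ℕ) : ℝ) * (t.factorial : ℝ) * ((j + 1).factorial : ℝ) =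
      ((t + (j + 1)).factorial : ℝ) := by
    exact_mod_cast h
  have f1 : (0 : ℝ) < (t.factorial : ℝ) := by exact_mod_cast t.factorial_pos
  have f2 : (0 : ℝ) < ((j + 1).factorial : ℝ) := by exact_mod_cast Nat.factorial_pos _
  rw [← h2]
  push_cast
  field_simp

theorem g1m_abs {m : ℕ} (hm : 16 ≤ m) : |g1m m| ≤ 3 * (m : ℝ) - 2 ∧ g1m m ≤ 0 := by
  have h1 := cm_ge hm
  have h2 := cm_le hm
  have hm' : (16 : ℝ) ≤ m := by exact_mod_cast hm
  have h3 : 2 / (m : ℝ) ≤ 1 := by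
    rw [div_le_one (by linarith)]
    linarith
  have h4 : 0 ≤ (1 - cm m) * (3 * (m : ℝ) + 1) := mul_nonneg (by linarith) (by linarith)
  have h5 : (1 - cm m) * (3 * (m : ℝ) + 1) ≤ 3 * (m : ℝ) - 2 := by
    have h6 : (1 - cm m) * (3 * (m : ℝ) + 1) ≤ (1 - 1 / (m : ℝ)) * (3 * (m : ℝ) + 1) :=
      mul_le_mul_of_nonneg_right (by linarith) (by linarith)
    refine h6.trans ?_
    have h7 : (1 - 1 / (m : ℝ)) * (3 * (m : ℝ) + 1) = 3 * (m : ℝ) - 2 - 1 / m := by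
      field_simp
      ring
    have h8 : 0 ≤ 1 / (m : ℝ) := by positivity
    linarith
  unfold g1m
  refine ⟨?_, ?_⟩
  · rw [abs_le]
    constructor <;> linarith
  · linarith

theorem g2m_le {m : ℕ} (hm : 16 ≤ m) :
    0 ≤ g2m m ∧ g2m m ≤ 2 * ((m : ℝ) - 1) * ((m : ℝ) + 1) ∧ g1m m ^ 2 ≤ 8 * g2m m := by
  have h1 := cm_ge hm
  have h2 := cm_le hm
  have hm' : (16 : ℝ) ≤ m := by exact_mod_cast hm
  have h3 : 2 / (m : ℝ) ≤ 1 := by
    rw [div_le_one (by linarith)]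
    linarith
  have h0 : 0 ≤ 1 / (m : ℝ) := by positivity
  have ha : 0 ≤ 1 - cm m := by linarith
  have hb : 1 - cm m ≤ 1 := by linarith
  unfold g2m g1m
  refine ⟨by positivity, ?_, ?_⟩
  · have h6 : (1 - cm m) * (2 * (m : ℝ) * (m + 1)) ≤ (1 - 1 / (m : ℝ)) * (2 * (m : ℝ) * (m + 1)) :=
      mul_le_mul_of_nonneg_right (by linarith) (by positivity)
    refine h6.trans (le_of_eq ?_)
    field_simp
  · have h7 : (1 - cm m) ^ 2 ≤ (1 - cm m) := by nlinarith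
    have h8 : (-(1 - cm m) * (3 * (m : ℝ) + 1)) ^ 2 = (1 - cm m) ^ 2 * (3 * (m : ℝ) + 1) ^ 2 := by
      ring
    rw [h8]
    have h9 : (1 - cm m) ^ 2 * (3 * (m : ℝ) + 1) ^ 2 ≤ (1 - cm m) * (3 * (m : ℝ) + 1) ^ 2 :=
      mul_le_mul_of_nonneg_right h7 (by positivity)
    refine h9.trans ?_
    have h10 : (3 * (m : ℝ) + 1) ^ 2 ≤ 8 * (2 * (m : ℝ) * (m + 1)) := by nlinarith
    calc (1 - cm m) * (3 * (m : ℝ) + 1) ^ 2 ≤ (1 - cm m) * (8 * (2 * (m : ℝ) * (m + 1))) :=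
          mul_le_mul_of_nonneg_left h10 ha
      _ = _ := by ring

/-- the bracket of the layer `i` -/
theorem bracket_le {m i : ℕ} (hm : 16 ≤ m) (hi : 3 ≤ i) (k : ℕ) :
    |((i - 1 + k).choose (k + 2) : ℝ) + g1m m * ((i - 2 + k).choose (k + 1) : ℝ) +
      g2m m * ((i - 3 + k).choose k : ℝ)| ≤
    (2 * ((m : ℝ) - 1) * ((m : ℝ) + 1) + ((i : ℝ) - 1) * ((i : ℝ) - 2) / 2) *
      ((i - 3 + k).choose k : ℝ) := by
  obtain ⟨j, rfl⟩ : ∃ j, i = j + 3 := ⟨i - 3, by omega⟩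
  rw [show j + 3 - 1 + k = (j + k + 1) + 1 by omega, show j + 3 - 2 + k = (j + k) + 1 by omega,
    show j + 3 - 3 + k = j + k by omega]
  obtain ⟨hg0, hg1, hg2⟩ := g2m_le hm
  obtain ⟨-, hg3⟩ := g1m_abs hm
  set e := ((j + k).choose k : ℝ) with he
  have he0 : 0 ≤ e := Nat.cast_nonneg _
  have hk1 : (0 : ℝ) < (k : ℝ) + 1 := by positivity
  have hk2 : (0 : ℝ) < (k : ℝ) + 2 := by positivity
  have e1 : ((j + k + 1).choose (k + 1) : ℝ) = e * (((j : ℝ) + k + 1) / ((k : ℝ) + 1)) := by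
    have := Nat.add_one_mul_choose_eq (j + k) k
    have h : ((j : ℝ) + k + 1) * e = ((j + k + 1).choose (k + 1) : ℝ) * ((k : ℝ) + 1) := by
      rw [he]
      exact_mod_cast this
    field_simp
    linarith
  have e2 : ((j + k + 1 + 1).choose (k + 2) : ℝ) =
      e * (((j : ℝ) + k + 1) / ((k : ℝ) + 1)) * (((j : ℝ) + k + 2) / ((k : ℝ) + 2)) := by
    have := Nat.add_one_mul_choose_eq (j + k + 1) (k + 1)
    have h : ((j : ℝ) + k + 2) * ((j + k + 1).choose (k + 1) : ℝ) =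
        ((j + k + 1 + 1).choose (k + 2) : ℝ) * ((k : ℝ) + 2) := by
      have h2 : ((j + k + 1 + 1 : ℕ) : ℝ) * ((j + k + 1).choose (k + 1) : ℝ) =
        ((j + k + 1 + 1).choose (k + 1 + 1) : ℝ) * ((k + 1 + 1 : ℕ) : ℝ) := by exact_mod_cast this
      push_cast at h2
      linarith
    rw [← e1]
    field_simp
    linarith
  rw [e1, e2]
  set α := ((j : ℝ) + k + 1) / ((k : ℝ) + 1) with hα
  set β := ((j : ℝ) + k + 2) / ((k : ℝ) + 2) with hβ
  have hα0 : 0 ≤ α := by positivity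
  have hβ0 : 0 ≤ β := by positivity
  have hkR : (0 : ℝ) ≤ k := Nat.cast_nonneg k
  have hjR : (0 : ℝ) ≤ j := Nat.cast_nonneg j
  have hα1 : α ≤ j + 1 := by
    rw [hα, div_le_iff₀ hk1]
    nlinarith
  have hβ1 : β ≤ ((j : ℝ) + 2) / 2 := by
    rw [hβ, div_le_div_iff₀ hk2 (by norm_num)]
    nlinarith
  have hβα : α ≤ 2 * β := by
    rw [hα, hβ, ← mul_div_assoc, div_le_div_iff₀ hk1 hk2]
    nlinarith
  have hαβ : α * β ≤ ((j : ℝ) + 1) * (((j : ℝ) + 2) / 2) := mul_le_mul hα1 hβ1 hβ0 (by positivity)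
  have ej : (((j + 3 : ℕ) : ℝ) - 1) * (((j + 3 : ℕ) : ℝ) - 2) / 2 = ((j : ℝ) + 1) * (((j : ℝ) + 2) / 2) := by
    push_cast
    ring
  rw [ej]
  have key1 : α * β + g1m m * α + g2m m ≤ 2 * ((m : ℝ) - 1) * ((m : ℝ) + 1) +
      ((j : ℝ) + 1) * (((j : ℝ) + 2) / 2) := by
    have : g1m m * α ≤ 0 := mul_nonpos_of_nonpos_of_nonneg hg3 hα0
    linarith
  have key2 : -(α * β + g2m m) ≤ α * β + g1m m * α + g2m m := by
    have h1 : α * α ≤ α * (2 * β) := mul_le_mul_of_nonneg_left hβα hα0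
    nlinarith [sq_nonneg (2 * α + g1m m)]
  have key3 : α * β + g2m m ≤ 2 * ((m : ℝ) - 1) * ((m : ℝ) + 1) +
      ((j : ℝ) + 1) * (((j : ℝ) + 2) / 2) := by linarith
  have e3 : e * α * β + g1m m * (e * α) + g2m m * e = (α * β + g1m m * α + g2m m) * e := by ring
  rw [e3, abs_mul, abs_of_nonneg he0]
  refine mul_le_mul_of_nonneg_right ?_ he0
  rw [abs_le]
  constructor <;> linarith

/-- **the binomial part** -/
theorem Abin_le {m i : ℕ} (hm : 16 ≤ m) (hi : 3 ≤ i) (k : ℕ) :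
    |Abin (m - 3) i (i + k)| ≤ muR m i * (((m + i + k - 4).factorial : ℝ) * ((k : ℝ) + 1) /
      (((m - 4).factorial : ℝ) * ((i - 1).factorial : ℝ) * ((k + 2).factorial : ℝ))) := by
  obtain ⟨t, rfl⟩ : ∃ t, m = t + 4 := ⟨m - 4, by omega⟩
  obtain ⟨j, rfl⟩ : ∃ j, i = j + 3 := ⟨i - 3, by omega⟩
  have ht : (12 : ℝ) ≤ t := by
    have : 12 ≤ t := by omega
    exact_mod_cast this
  have hjR : (0 : ℝ) ≤ j := Nat.cast_nonneg j
  have hkR : (0 : ℝ) ≤ k := Nat.cast_nonneg k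
  unfold Abin
  rw [show t + 4 - 3 = t + 1 by omega, show t + 1 + (j + 3 + k) - 1 = t + (j + 3 + k) by omega,
    show j + 3 + k - 1 = (j + 1) + (k + 1) by omega, show j + 3 - 2 = j + 1 by omega,
    show t + 4 + (j + 3) + k - 4 = t + (j + 3 + k) by omega, show t + 4 - 4 = t by omega,
    show j + 3 - 1 = j + 2 by omega]
  -- factorials
  have c1 : (((t + (j + 3 + k)).choose (j + 3 + k) : ℕ) : ℝ) * (t.factorial : ℝ) *
      ((j + 3 + k).factorial : ℝ) = ((t + (j + 3 + k)).factorial : ℝ) := by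
    exact_mod_cast Nat.add_choose_mul_factorial_mul_factorial t (j + 3 + k)
  have c2 : ((((j + 1) + (k + 1)).choose (j + 1) : ℕ) : ℝ) * ((j + 1).factorial : ℝ) *
      ((k + 1).factorial : ℝ) = (((j + 1) + (k + 1)).factorial : ℝ) := by
    have h := Nat.add_choose_mul_factorial_mul_factorial (j + 1) (k + 1)
    rw [← Nat.choose_symm_add] at h
    exact_mod_cast h
  have c3 : (((j + 3 + k).choose (j + 1) : ℕ) : ℝ) * ((j + 1).factorial : ℝ) *
      ((k + 2).factorial : ℝ) = ((j + 3 + k).factorial : ℝ) := by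
    have h := Nat.add_choose_mul_factorial_mul_factorial (j + 1) (k + 2)
    rw [← Nat.choose_symm_add, show j + 1 + (k + 2) = j + 3 + k by omega] at h
    exact_mod_cast h
  have s1 : ((j + 3 + k).factorial : ℝ) = ((j : ℝ) + 3 + k) * (((j + 1) + (k + 1)).factorial : ℝ) := by
    rw [show j + 3 + k = (j + 1) + (k + 1) + 1 by omega, Nat.factorial_succ]
    push_cast
    ring
  have s2 : ((k + 2).factorial : ℝ) = ((k : ℝ) + 2) * ((k + 1).factorial : ℝ) := by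
    rw [Nat.factorial_succ]
    push_cast
    ring
  have s3 : ((j + 2).factorial : ℝ) = ((j : ℝ) + 2) * ((j + 1).factorial : ℝ) := by
    rw [Nat.factorial_succ]
    push_cast
    ring
  have f0 : (0 : ℝ) < (t.factorial : ℝ) := by exact_mod_cast Nat.factorial_pos _
  have f1 : (0 : ℝ) < ((j + 3 + k).factorial : ℝ) := by exact_mod_cast Nat.factorial_pos _
  have f2 : (0 : ℝ) < ((j + 1).factorial : ℝ) := by exact_mod_cast Nat.factorial_pos _
  have f3 : (0 : ℝ) < ((k + 1).factorial : ℝ) := by exact_mod_cast Nat.factorial_pos _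
  have f4 : (0 : ℝ) < (((j + 1) + (k + 1)).factorial : ℝ) := by exact_mod_cast Nat.factorial_pos _
  have f5 : (0 : ℝ) < ((t + (j + 3 + k)).factorial : ℝ) := by exact_mod_cast Nat.factorial_pos _
  have f6 : (0 : ℝ) < ((k + 2).factorial : ℝ) := by exact_mod_cast Nat.factorial_pos _
  set F := ((t + (j + 3 + k)).factorial : ℝ) with hF
  have v1 : (((t + (j + 3 + k)).choose (j + 3 + k) : ℕ) : ℝ) =
      F / ((t.factorial : ℝ) * ((j + 3 + k).factorial : ℝ)) := by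
    rw [← c1]
    field_simp
  have v2 : ((((j + 1) + (k + 1)).choose (j + 1) : ℕ) : ℝ) =
      (((j + 1) + (k + 1)).factorial : ℝ) / (((j + 1).factorial : ℝ) * ((k + 1).factorial : ℝ)) := by
    rw [← c2]
    field_simp
  have v3 : (((j + 3 + k).choose (j + 1) : ℕ) : ℝ) =
      ((j + 3 + k).factorial : ℝ) / (((j + 1).factorial : ℝ) * ((k + 2).factorial : ℝ)) := by
    rw [← c3]
    field_simp
  rw [v1, v2, v3]
  -- the closed form
  have hcl : F / ((t.factorial : ℝ) * ((j + 3 + k).factorial : ℝ)) *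
      ((((j + 1) + (k + 1)).factorial : ℝ) / (((j + 1).factorial : ℝ) * ((k + 1).factorial : ℝ)) -
        (((t + 1 : ℕ) : ℝ) + ((j + 3 : ℕ) : ℝ) - 2) / (((t + 1 : ℕ) : ℝ) * (((j + 3 : ℕ) : ℝ) - 1)) *
          (((j + 3 + k).factorial : ℝ) / (((j + 1).factorial : ℝ) * ((k + 2).factorial : ℝ)))) =
      (F / ((t.factorial : ℝ) * ((j + 2).factorial : ℝ) * ((k + 2).factorial : ℝ))) *
        ((((j : ℝ) + 1) / ((j : ℝ) + 3 + k)) *
          ((((t : ℝ) + 1) * (k + 1) - ((j : ℝ) + 3 + k)) / ((t : ℝ) + 1))) := by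
    rw [s1, s2, s3]
    push_cast
    have n1 : (j : ℝ) + 3 + k ≠ 0 := by positivity
    have n2 : (t : ℝ) + 1 ≠ 0 := by positivity
    rw [show (j : ℝ) + 3 - 1 = j + 2 by ring, show (t : ℝ) + 1 + (j + 3) - 2 = t + j + 2 by ring]
    field_simp
    ring
  rw [hcl, abs_mul, abs_of_pos (by positivity : (0 : ℝ) <
    F / ((t.factorial : ℝ) * ((j + 2).factorial : ℝ) * ((k + 2).factorial : ℝ)))]
  have e9 : muR (t + 4) (j + 3) * (F * ((k : ℝ) + 1) / ((t.factorial : ℝ) * ((j + 2).factorial : ℝ) *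
      ((k + 2).factorial : ℝ))) =
      (F / ((t.factorial : ℝ) * ((j + 2).factorial : ℝ) * ((k + 2).factorial : ℝ))) *
        (muR (t + 4) (j + 3) * ((k : ℝ) + 1)) := by ring
  rw [e9]
  refine mul_le_mul_of_nonneg_left ?_ (by positivity)
  have hmu1 : 1 ≤ muR (t + 4) (j + 3) := le_max_left _ _
  have hmu2 : ((j : ℝ) + 3 - (t + 1)) / (t + 1) ≤ muR (t + 4) (j + 3) := by
    refine le_trans (le_of_eq ?_) (le_max_right _ _)
    push_cast
    congr 1 <;> ring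
  have hmu3 : ((j : ℝ) + 3 - (t + 1)) ≤ muR (t + 4) (j + 3) * (t + 1) := by
    rwa [div_le_iff₀ (by positivity)] at hmu2
  rw [abs_mul, abs_of_nonneg (by positivity : (0 : ℝ) ≤ ((j : ℝ) + 1) / ((j : ℝ) + 3 + k)), abs_div,
    abs_of_pos (by positivity : (0 : ℝ) < (t : ℝ) + 1)]
  have h1 : ((j : ℝ) + 1) / ((j : ℝ) + 3 + k) ≤ 1 := by
    rw [div_le_one (by positivity)]
    linarith
  have h2 : |((t : ℝ) + 1) * (k + 1) - ((j : ℝ) + 3 + k)| / ((t : ℝ) + 1) ≤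
      muR (t + 4) (j + 3) * ((k : ℝ) + 1) := by
    rw [div_le_iff₀ (by positivity), abs_le]
    constructor
    · have h3 : ((j : ℝ) + 3 - (t + 1)) * (k + 1) ≤ muR (t + 4) (j + 3) * (t + 1) * (k + 1) :=
        mul_le_mul_of_nonneg_right hmu3 (by positivity)
      nlinarith
    · have h3 : (1 : ℝ) * (((t : ℝ) + 1) * (k + 1)) ≤ muR (t + 4) (j + 3) * ((t + 1) * (k + 1)) :=
        mul_le_mul_of_nonneg_right hmu1 (by positivity)
      nlinarith
  have h4 : 0 ≤ muR (t + 4) (j + 3) * ((k : ℝ) + 1) := by positivity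
  calc ((j : ℝ) + 1) / ((j : ℝ) + 3 + k) *
        (|((t : ℝ) + 1) * (k + 1) - ((j : ℝ) + 3 + k)| / ((t : ℝ) + 1))
      ≤ 1 * (muR (t + 4) (j + 3) * ((k : ℝ) + 1)) := mul_le_mul h1 h2 (by positivity) (by norm_num)
    _ = _ := one_mul _

end Pool.JM.H5
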