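import Pool.Agent.Work.MP_46fa68_h5.RowB

/-!
# MP_46fa68_co: ROWB, part 3: the sums, and the bound of one row
-/

set_option autoImplicit false

open Finset

namespace Pool.JM.H5

/-- negative binomial sums -/
theorem sum_nb_le (j N : ℕ) {z : ℝ} (hz0 : 0 ≤ z) (hz1 : z < 1) :
    ∑ k ∈ range N, ((j + k).choose k : ℝ) * z ^ k ≤ 1 / (1 - z) ^ (j + 1) := by
  have hz : ‖z‖ < 1 := by rwa [Real.norm_eq_abs, abs_of_nonneg hz0]
  have h := hasSum_choose_mul_geometric_of_norm_lt_one j hz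
  have h2 := sum_le_hasSum (range N) (fun n _ => by positivity) h
  refine le_trans (le_of_eq (sum_congr rfl fun k _ => ?_)) h2
  rw [← Nat.choose_symm_add, add_comm j k]

theorem sum_knb_le (j N : ℕ) {z : ℝ} (hz0 : 0 ≤ z) (hz1 : z < 1) :
    ∑ k ∈ range N, (k : ℝ) * (((j + k).choose k : ℝ) * z ^ k) ≤
      ((j : ℝ) + 1) * z / (1 - z) ^ (j + 2) := by
  cases N with
  | zero =>
    rw [range_zero, sum_empty]
    have : 0 < 1 - z := by linarith
    positivity
  | succ N =>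
    rw [sum_range_succ', Nat.cast_zero, zero_mul, add_zero]
    have h := sum_nb_le (j + 1) N hz0 hz1
    have e : ∀ k ∈ range N, ((k + 1 : ℕ) : ℝ) * (((j + (k + 1)).choose (k + 1) : ℝ) * z ^ (k + 1)) =
        ((j : ℝ) + 1) * z * (((j + 1 + k).choose k : ℝ) * z ^ k) := by
      intro k _
      have h1 : (j + (k + 1)).choose (k + 1) * (k + 1) = (j + 1 + k).choose k * (j + 1) := by
        have h3 := Nat.choose_succ_right_eq (j + 1 + k) k
        rw [show j + 1 + k - k = j + 1 by omega] at h3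
        rw [show j + (k + 1) = j + 1 + k by omega]
        exact h3
      have h2 : ((j + (k + 1)).choose (k + 1) : ℝ) * ((k : ℝ) + 1) =
          ((j + 1 + k).choose k : ℝ) * ((j : ℝ) + 1) := by exact_mod_cast h1
      push_cast
      rw [pow_succ]
      linear_combination (z ^ k * z) * h2
    rw [sum_congr rfl e, ← mul_sum]
    refine (mul_le_mul_of_nonneg_left h (by positivity)).trans (le_of_eq ?_)
    rw [mul_one_div]

/-- the geometric part -/
theorem geo_part (j m N : ℕ) {D : ℝ} (hD : 0 ≤ D) :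
    ∑ k ∈ range N, ((j + k).choose k : ℝ) * (D + k) / ((m : ℝ) + 2) ^ k ≤
      (((m : ℝ) + 2) / ((m : ℝ) + 1)) ^ (j + 1) * (D + ((j : ℝ) + 1) / ((m : ℝ) + 1)) := by
  have hm1 : (0 : ℝ) < (m : ℝ) + 1 := by positivity
  have hm2 : (0 : ℝ) < (m : ℝ) + 2 := by positivity
  have hz0 : (0 : ℝ) ≤ 1 / ((m : ℝ) + 2) := by positivity
  have hz1 : 1 / ((m : ℝ) + 2) < 1 := by
    rw [div_lt_one hm2]
    have : (0 : ℝ) ≤ m := Nat.cast_nonneg m
    linarith
  have h1 := sum_nb_le j N hz0 hz1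
  have h2 := sum_knb_le j N hz0 hz1
  have e : ∀ k ∈ range N, ((j + k).choose k : ℝ) * (D + k) / ((m : ℝ) + 2) ^ k =
      D * (((j + k).choose k : ℝ) * (1 / ((m : ℝ) + 2)) ^ k) +
      (k : ℝ) * (((j + k).choose k : ℝ) * (1 / ((m : ℝ) + 2)) ^ k) := by
    intro k _
    rw [one_div, inv_pow]
    field_simp
  rw [sum_congr rfl e, sum_add_distrib, ← mul_sum]
  refine (add_le_add (mul_le_mul_of_nonneg_left h1 hD) h2).trans (le_of_eq ?_)
  have e2 : 1 - 1 / ((m : ℝ) + 2) = ((m : ℝ) + 1) / ((m : ℝ) + 2) := by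
    field_simp
    ring
  rw [e2, div_pow, div_pow, div_pow, pow_succ ((m : ℝ) + 1) (j + 1), pow_succ ((m : ℝ) + 2) (j + 1)]
  field_simp

/-- ratio of factorials -/
theorem fac_ratio {m i : ℕ} (hm : 1 ≤ m) (n : ℕ) (hi : 4 ≤ i) :
    ((m + i - 5 + n).factorial : ℝ) * (m.factorial : ℝ) ≤
      ((m + i - 5).factorial : ℝ) * ((m + n).factorial : ℝ) * yR m i ^ n := by
  induction n with
  | zero => simp
  | succ n ih =>
    rw [← add_assoc, ← add_assoc, Nat.factorial_succ, Nat.factorial_succ (m + n), pow_succ]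
    push_cast
    have hy : ((m + i - 5 : ℕ) : ℝ) + n + 1 ≤ ((m : ℝ) + n + 1) * yR m i := by
      unfold yR
      have h1 : ((m + i - 5 : ℕ) : ℝ) ≤ m + ((i - 5 : ℕ) : ℝ) := by
        have : m + i - 5 ≤ m + (i - 5) := by omega
        exact_mod_cast this
      have h2 : ((i - 5 : ℕ) : ℝ) ≤ ((m : ℝ) + n + 1) * (((i - 5 : ℕ) : ℝ) / ((m : ℝ) + 1)) := by
        rw [← mul_div_assoc, le_div_iff₀ (by positivity)]
        have : (0 : ℝ) ≤ n := Nat.cast_nonneg n
        have h3 : (0 : ℝ) ≤ ((i - 5 : ℕ) : ℝ) := Nat.cast_nonneg _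
        nlinarith
      nlinarith
    have h0 : 0 ≤ yR m i := by
      unfold yR
      positivity
    calc (((m + i - 5 : ℕ) : ℝ) + n + 1) * ((m + i - 5 + n).factorial : ℝ) * (m.factorial : ℝ)
        = (((m + i - 5 : ℕ) : ℝ) + n + 1) * (((m + i - 5 + n).factorial : ℝ) * (m.factorial : ℝ)) := by
          ring
      _ ≤ (((m : ℝ) + n + 1) * yR m i) *
          (((m + i - 5).factorial : ℝ) * ((m + n).factorial : ℝ) * yR m i ^ n) :=
          mul_le_mul hy ih (by positivity) (by positivity)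
      _ = _ := by ring

/-- the exponential part -/
theorem exp_part (N : ℕ) {y D : ℝ} (hy : 1 ≤ y) (hD : 0 ≤ D) :
    ∑ k ∈ range N, ((k : ℝ) + 1) * (D + k) * y ^ (k + 1) / ((k + 2).factorial : ℝ) ≤
      y * Real.exp y + (D - 2) * (Real.exp y * (1 - 1 / y) + 1 / y) := by
  have hy0 : 0 < y := by linarith
  have h0 : HasSum (fun n : ℕ => y ^ n / (n.factorial : ℝ)) (Real.exp y) := by
    rw [Real.exp_eq_exp_ℝ]
    exact NormedSpace.expSeries_div_hasSum_exp y
  have h1 := (hasSum_nat_add_iff' 1).2 h0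
  have h2 := (hasSum_nat_add_iff' 2).2 h0
  have h3 := ((h0.mul_left y).add (h1.mul_left (D - 2))).sub (h2.mul_left ((D - 2) / y))
  have e : ∀ k : ℕ, ((k : ℝ) + 1) * (D + k) * y ^ (k + 1) / ((k + 2).factorial : ℝ) =
      y * (y ^ k / (k.factorial : ℝ)) + (D - 2) * (y ^ (k + 1) / ((k + 1).factorial : ℝ)) -
      (D - 2) / y * (y ^ (k + 2) / ((k + 2).factorial : ℝ)) := by
    intro k
    have f0 : (0 : ℝ) < (k.factorial : ℝ) := by exact_mod_cast k.factorial_pos
    rw [Nat.factorial_succ (k + 1), Nat.factorial_succ k]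
    push_cast
    field_simp
    ring
  have h4 : HasSum (fun k : ℕ => ((k : ℝ) + 1) * (D + k) * y ^ (k + 1) / ((k + 2).factorial : ℝ))
      (y * Real.exp y + (D - 2) * (Real.exp y * (1 - 1 / y) + 1 / y)) := by
    have h5 : y * Real.exp y + (D - 2) * (Real.exp y * (1 - 1 / y) + 1 / y) =
        y * Real.exp y + (D - 2) * (Real.exp y - ∑ i ∈ range 1, y ^ i / (i.factorial : ℝ)) -
        (D - 2) / y * (Real.exp y - ∑ i ∈ range 2, y ^ i / (i.factorial : ℝ)) := by
      simp only [sum_range_succ, sum_range_zero, Nat.factorial, pow_zero, pow_one]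
      push_cast
      field_simp
      ring
    rw [h5]
    refine h3.congr_fun ?_ 
    intro k
    exact e k
  exact sum_le_hasSum (range N) (fun k _ => by positivity) h4

theorem exp_yR_le {m : ℕ} (hm : 1 ≤ m) (i : ℕ) : Real.exp (yR m i) ≤ EyR m i := by
  unfold yR EyR
  have hm0 : (0 : ℝ) < m := by exact_mod_cast hm
  rw [Real.exp_add]
  have h1 : Real.exp 1 ≤ 2.7183 := by
    have := Real.exp_one_lt_d9
    linarith
  have h2 : Real.exp (((i - 5 : ℕ) : ℝ) / ((m : ℝ) + 1)) ≤ (((m : ℝ) + 1) / m) ^ (i - 5) := by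
    rw [show ((i - 5 : ℕ) : ℝ) / ((m : ℝ) + 1) = ((i - 5 : ℕ) : ℝ) * (1 / ((m : ℝ) + 1)) by ring,
      Real.exp_nat_mul]
    refine pow_le_pow_left₀ (Real.exp_pos _).le ?_ _
    have h3 := Real.one_sub_le_exp_neg (1 / ((m : ℝ) + 1))
    have h4 : 1 - 1 / ((m : ℝ) + 1) = m / ((m : ℝ) + 1) := by
      field_simp
      ring
    rw [h4, Real.exp_neg] at h3
    have h5 := Real.exp_pos (1 / ((m : ℝ) + 1))
    rw [le_div_iff₀ hm0]
    rw [div_le_iff₀ (by positivity)] at h3
    have h6 := mul_le_mul_of_nonneg_left h3 h5.le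
    have h7 : Real.exp (1 / ((m : ℝ) + 1)) * ((Real.exp (1 / ((m : ℝ) + 1)))⁻¹ * ((m : ℝ) + 1)) =
        (m : ℝ) + 1 := by
      field_simp
    linarith
  exact mul_le_mul h1 h2 (Real.exp_pos _).le (by norm_num)

theorem SAR_mono {y E E' D : ℝ} (hy : 1 ≤ y) (hE : E ≤ E') (hD : 0 ≤ D) : SAR y E D ≤ SAR y E' D := by
  unfold SAR
  have h1 : 0 ≤ 1 / y := by positivity
  have h2 : 1 / y ≤ 1 := by
    rw [div_le_one (by linarith)]
    exact hy
  have h3 : 0 ≤ y + (D - 2) * (1 - 1 / y) := by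
    have h4 : 0 ≤ D * (1 - 1 / y) := mul_nonneg hD (by linarith)
    have h5 : 0 ≤ y - 2 + 2 / y := by
      have : y - 2 + 2 / y = ((y - 1) ^ 2 + 1) / y := by
        field_simp
        ring
      rw [this]
      positivity
    have h6 : 2 / y = 2 * (1 / y) := by ring
    nlinarith
  have h7 : (E' - E) * (y + (D - 2) * (1 - 1 / y)) =
      (y * E' + (D - 2) * (E' * (1 - 1 / y) + 1 / y)) -
      (y * E + (D - 2) * (E * (1 - 1 / y) + 1 / y)) := by ring
  have h8 : 0 ≤ (E' - E) * (y + (D - 2) * (1 - 1 / y)) := mul_nonneg (by linarith) h3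
  linarith

end Pool.JM.H5
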