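import Pool.Agent.Work.MP_46fa68_20.Glue

/-!
# MP_46fa68_co: the bound for one row `r ≥ 2` (definitions and the statement ROWB)

`i = M0 - x` is the wall distance of the row (`M0 = M + m`), `d = M0 - tb B` the wall distance of row 1,
`etaR B x = x! / ∏ |x - y|` = (product of the hooks of the row) / (product of the distances to the beads above).
-/

set_option autoImplicit false

open Finset

namespace Pool.JM

/-- product of the hooks of the row of `x`, divided by the distances to the beads above -/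
noncomputable def etaR (B : Finset ℕ) (x : ℕ) : ℝ :=
  (x.factorial : ℝ) / ∏ y ∈ B.erase x, |(x : ℝ) - y|

noncomputable def yR (m i : ℕ) : ℝ := 1 + ((i - 5 : ℕ) : ℝ) / ((m : ℝ) + 1)

/-- a rational upper bound of `exp (yR m i)` -/
noncomputable def EyR (m i : ℕ) : ℝ := 2.7183 * (((m : ℝ) + 1) / m) ^ (i - 5)

noncomputable def SAR (y E d : ℝ) : ℝ := y * E + (d - 2) * (E * (1 - 1 / y) + 1 / y)

noncomputable def muR (m i : ℕ) : ℝ := max 1 (((i : ℝ) - ((m : ℝ) - 3)) / ((m : ℝ) - 3))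

noncomputable def SrR (m i : ℕ) (d : ℝ) : ℝ :=
  (3 * (m : ℝ) - 2) / ((m : ℝ) - 3) * |d - 1| +
  (2 * ((m : ℝ) - 1) / ((m : ℝ) - 3) +
    ((i : ℝ) - 1) * ((i : ℝ) - 2) / (2 * ((m : ℝ) - 3) * ((m : ℝ) + 1))) *
    (((m : ℝ) + 2) / ((m : ℝ) + 1)) ^ (i - 2) * (|d| + ((i : ℝ) - 2) / ((m : ℝ) + 1)) +
  muR m i * SAR (yR m i) (EyR m i) |d|

noncomputable def BdR (m i : ℕ) (d : ℝ) : ℝ :=
  ((m + i - 5).factorial : ℝ) /
    (((m - 4).factorial : ℝ) * (m.factorial : ℝ) * ((i - 1).factorial : ℝ)) * SrR m i d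

/-- **ROWB** -/
def Stmt_ROWB (m : ℕ) : Prop := ∀ M A : ℕ, ∀ B ∈ Lv (M + 1) (m + (m - 3)),
  ∀ x ∈ B.erase (tb B), x + 4 ≤ M + m →
    |Cr m A (M + m) B x| ≤ BdR m (M + m - x) ((M : ℝ) + m - tb B) * etaR B x

end Pool.JM
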