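import Pool.Agent.Work.MP_46fa68_h5.RowOdd

/-!
# MP_46fa68_co: row 2 in the layer `i = 4`
-/

set_option autoImplicit false

open Finset

namespace Pool.JM.H5

theorem kapB_four {m : ℕ} (hm : 16 ≤ m) (k : ℕ) : kapB m 4 k = Abin (m - 3) 4 (4 + k) +
    ((m : ℝ) - 1) * ((m : ℝ) - 2) / 6 *
      (((k : ℝ) + 3) + g1m m * ((k : ℝ) + 2) + g2m m * ((k : ℝ) + 1)) := by
  unfold kapB
  rw [show 4 - 1 + k = (k + 2) + 1 by omega, show 4 - 2 + k = (k + 1) + 1 by omega,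
    show 4 - 3 + k = k + 1 by omega, Nat.choose_succ_self_right, Nat.choose_succ_self_right,
    Nat.choose_succ_self_right, show m + 4 - 5 = m - 1 by omega, fac_sub (j := 1) (by omega),
    fac_sub (j := 2) (by omega)]
  have f0 : ((m - 3).factorial : ℝ) ≠ 0 := by exact_mod_cast Nat.factorial_ne_zero _
  have e3 : (((4 - 1).factorial : ℕ) : ℝ) = 6 := by norm_num [Nat.factorial]
  rw [e3]
  push_cast
  field_simp
  ring

/-- `P0 = (m-2)/(6 m (m+1) (m+2))` -/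
noncomputable def P0 (x : ℝ) : ℝ := (x - 2) / (6 * x * (x + 1) * (x + 2))

theorem fac_A {m : ℕ} (hm : 16 ≤ m) (k : ℕ) :
    Abin (m - 3) 4 (4 + k) * (((m - 2).factorial : ℝ) / ((m + 2 + k).factorial : ℝ)) =
      ((m : ℝ) - 2) * (((m : ℝ) - 3) * (k + 1) - (4 + k)) /
        (3 * ((m : ℝ) + 1 + k) * ((m : ℝ) + 2 + k) * ((k + 2).factorial : ℝ) * (4 + k)) := by
  have hmR : (16 : ℝ) ≤ m := by exact_mod_cast hm
  rw [Abin_eq (by omega) (by norm_num)]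
  have e1 : ((m - 2).factorial : ℝ) = ((m : ℝ) - 2) * (((m : ℝ) - 3) * ((m - 4).factorial : ℝ)) := by
    rw [fac_sub (j := 2) (by omega), fac_sub (j := 3) (by omega)]
    push_cast
    ring
  have e2 : ((m + 2 + k).factorial : ℝ) =
      ((m : ℝ) + 2 + k) * (((m : ℝ) + 1 + k) * ((m + k).factorial : ℝ)) := by
    rw [show m + 2 + k = (m + k) + 1 + 1 by omega, Nat.factorial_succ, Nat.factorial_succ]
    push_cast
    ring
  have e3 : (((4 - 1).factorial : ℕ) : ℝ) = 6 := by norm_num [Nat.factorial]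
  have f0 : ((m - 4).factorial : ℝ) ≠ 0 := by exact_mod_cast Nat.factorial_ne_zero _
  have f1 : ((m + k).factorial : ℝ) ≠ 0 := by exact_mod_cast Nat.factorial_ne_zero _
  have f2 : ((k + 2).factorial : ℝ) ≠ 0 := by exact_mod_cast Nat.factorial_ne_zero _
  rw [show m + 4 + k - 4 = m + k by omega, e1, e2, e3]
  generalize ((m - 4).factorial : ℝ) = F at f0 ⊢
  generalize ((m + k).factorial : ℝ) = G at f1 ⊢
  generalize ((k + 2).factorial : ℝ) = H at f2 ⊢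
  have n1 : (m : ℝ) - 3 ≠ 0 := by
    have : (0 : ℝ) < (m : ℝ) - 3 := by linarith
    exact this.ne'
  have n2 : (m : ℝ) + 1 + k ≠ 0 := by positivity
  have n3 : (m : ℝ) + 2 + k ≠ 0 := by positivity
  have n4 : (4 : ℝ) + k ≠ 0 := by positivity
  push_cast
  field_simp
  ring

theorem fac_B {m : ℕ} (hm : 16 ≤ m) :
    ((m : ℝ) - 1) * ((m : ℝ) - 2) / 6 * (((m - 2).factorial : ℝ) / ((m + 2).factorial : ℝ)) =
      P0 m := by
  have hmR : (16 : ℝ) ≤ m := by exact_mod_cast hm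
  have e1 : (m.factorial : ℝ) = (m : ℝ) * (((m : ℝ) - 1) * ((m - 2).factorial : ℝ)) := by
    have h0 := fac_sub (m := m) (j := 0) (by omega)
    rw [Nat.sub_zero] at h0
    rw [h0, fac_sub (j := 1) (by omega)]
    push_cast
    ring
  have e2 : ((m + 2).factorial : ℝ) = ((m : ℝ) + 2) * (((m : ℝ) + 1) * (m.factorial : ℝ)) := by
    rw [Nat.factorial_succ, Nat.factorial_succ]
    push_cast
    ring
  have f0 : ((m - 2).factorial : ℝ) ≠ 0 := by exact_mod_cast Nat.factorial_ne_zero _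
  rw [e2, e1]
  generalize ((m - 2).factorial : ℝ) = F at f0 ⊢
  have n1 : (m : ℝ) - 1 ≠ 0 := by
    have : (0 : ℝ) < (m : ℝ) - 1 := by linarith
    exact this.ne'
  unfold P0
  field_simp

theorem fac_Bk {m : ℕ} (hm : 16 ≤ m) (k : ℕ) :
    ((m : ℝ) - 1) * ((m : ℝ) - 2) / 6 * (((m - 2).factorial : ℝ) / ((m + 2 + k).factorial : ℝ)) ≤
      P0 m / ((m : ℝ) + 3) ^ k := by
  have hmR : (16 : ℝ) ≤ m := by exact_mod_cast hm
  rw [← fac_B hm]
  have f1 : (0 : ℝ) < ((m + 2).factorial : ℝ) := by exact_mod_cast Nat.factorial_pos _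
  have h1 : ((m + 2).factorial : ℝ) * ((m : ℝ) + 3) ^ k ≤ ((m + 2 + k).factorial : ℝ) := by
    have := Nat.factorial_mul_pow_le_factorial (m := m + 2) (n := k)
    have h9 : (((m + 2).factorial * (m + 2 + 1) ^ k : ℕ) : ℝ) ≤ ((m + 2 + k).factorial : ℝ) := by
      exact_mod_cast this
    push_cast at h9
    rwa [show (m : ℝ) + 2 + 1 = m + 3 by ring] at h9
  have h2 : 0 ≤ ((m : ℝ) - 1) * ((m : ℝ) - 2) / 6 := by
    have : 0 ≤ (m : ℝ) - 1 := by linarith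
    have : 0 ≤ (m : ℝ) - 2 := by linarith
    positivity
  have e : ((m : ℝ) - 1) * ((m : ℝ) - 2) / 6 *
      (((m - 2).factorial : ℝ) / ((m + 2).factorial : ℝ)) / ((m : ℝ) + 3) ^ k =
      ((m : ℝ) - 1) * ((m : ℝ) - 2) / 6 *
      (((m - 2).factorial : ℝ) / (((m + 2).factorial : ℝ) * ((m : ℝ) + 3) ^ k)) := by
    generalize ((m - 2).factorial : ℝ) = F
    generalize ((m + 2).factorial : ℝ) = G at f1 ⊢
    field_simp
  rw [e]
  refine mul_le_mul_of_nonneg_left ?_ h2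
  exact div_le_div_of_nonneg_left (by positivity) (by positivity) h1

/-- the weights of the sum in the layer 4 -/
noncomputable def S40 (x g1 g2 d : ℝ) : ℝ :=
  ((x - 2) * (x - 7) / (24 * (x + 1) * (x + 2)) + P0 x * (3 + 2 * g1 + g2)) *
    ((x + 2 - d) / (x - 2 - d)) * (d / (4 - d))

noncomputable def S41 (x g1 g2 d : ℝ) : ℝ :=
  ((x - 2) * (2 * x - 11) / (90 * (x + 2) * (x + 3)) + P0 x / (x + 3) * (4 + 3 * g1 + 2 * g2)) *
    ((x + 3 - d) / (x - 2 - d)) * ((d + 1) / (4 - d))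

noncomputable def al4 (d : ℝ) : ℝ := (d + 2) / (144 * (4 - d))

noncomputable def be4 (x d : ℝ) : ℝ :=
  P0 x * (2 * x ^ 2 + 1) * 3 * (x + 4 - d) * (d + 2) / ((x + 3) ^ 2 * (x - 2 - d) * (4 - d))

/-- the tail of the binomial part -/
theorem tail_A {x d : ℝ} (hx : 16 ≤ x) (hd : d = 0 ∨ d = 2 ∨ d = 3) (j : ℕ) :
    (x - 2) * ((x - 3) * (((j + 2 : ℕ) : ℝ) + 1) - (4 + ((j + 2 : ℕ) : ℝ))) /
        (3 * (x + 1 + ((j + 2 : ℕ) : ℝ)) * (x + 2 + ((j + 2 : ℕ) : ℝ)) * ((j + 2 + 2).factorial : ℝ) *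
          (4 + ((j + 2 : ℕ) : ℝ))) *
      ((x + 2 - d + ((j + 2 : ℕ) : ℝ)) / (x - 2 - d)) * ((d + ((j + 2 : ℕ) : ℝ)) / (4 - d)) ≤
      al4 d * (2 / 5) ^ j := by
  have hj : (0 : ℝ) ≤ j := Nat.cast_nonneg j
  have hd0 : 0 ≤ d := by rcases hd with rfl | rfl | rfl <;> norm_num
  have hd3 : d ≤ 3 := by rcases hd with rfl | rfl | rfl <;> norm_num
  have hfac : (24 : ℝ) * 5 ^ j ≤ ((j + 2 + 2).factorial : ℝ) := by
    have := Nat.factorial_mul_pow_le_factorial (m := 4) (n := j)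
    have h9 : (((4).factorial * (4 + 1) ^ j : ℕ) : ℝ) ≤ ((4 + j).factorial : ℝ) := by
      exact_mod_cast this
    rw [show j + 2 + 2 = 4 + j by omega]
    push_cast at h9
    norm_num [Nat.factorial] at h9
    exact h9
  have h2j : 1 + (j : ℝ) ≤ 2 ^ j := by
    have := one_add_mul_le_pow (by norm_num : (-2 : ℝ) ≤ 1) j
    norm_num at this
    linarith
  push_cast
  -- first factor
  have hA : (x - 2) * ((x - 3) * ((j : ℝ) + 2 + 1) - (4 + ((j : ℝ) + 2))) * (x + 2 - d + ((j : ℝ) + 2)) ≤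
      ((j : ℝ) + 3) * ((x + 1 + ((j : ℝ) + 2)) * (x + 2 + ((j : ℝ) + 2)) * (x - 2 - d)) := by
    have h1 : (x - 3) * ((j : ℝ) + 2 + 1) - (4 + ((j : ℝ) + 2)) ≤ ((j : ℝ) + 3) * (x - 4) := by
      nlinarith
    have h2 : 0 ≤ (x - 2) * (x + 2 - d + ((j : ℝ) + 2)) := mul_nonneg (by linarith) (by linarith)
    have h3 : (x - 2) * (x - 4) * (x + 2 - d + ((j : ℝ) + 2)) ≤
        (x + 1 + ((j : ℝ) + 2)) * (x + 2 + ((j : ℝ) + 2)) * (x - 2 - d) := by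
      rcases hd with rfl | rfl | rfl
      · have : 0 ≤ (x + 2 + ((j : ℝ) + 2)) * (x - 2) := mul_nonneg (by linarith) (by linarith)
        nlinarith
      · have : 0 ≤ (x - 4) := by linarith
        have h4 : (x - 2) * (x + ((j : ℝ) + 2)) ≤ (x + 1 + ((j : ℝ) + 2)) * (x + 2 + ((j : ℝ) + 2)) := by
          nlinarith
        nlinarith
      · have h5 : (x - 2) * (x - 4) ≤ (x + 2 + ((j : ℝ) + 2)) * (x - 5) := by nlinarith
        have h6 : x + 2 - 3 + ((j : ℝ) + 2) ≤ x + 1 + ((j : ℝ) + 2) := by linarith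
        calc (x - 2) * (x - 4) * (x + 2 - 3 + ((j : ℝ) + 2))
            ≤ ((x + 2 + ((j : ℝ) + 2)) * (x - 5)) * (x + 1 + ((j : ℝ) + 2)) :=
              mul_le_mul h5 h6 (by linarith) (mul_nonneg (by linarith) (by linarith))
          _ = _ := by ring
    calc (x - 2) * ((x - 3) * ((j : ℝ) + 2 + 1) - (4 + ((j : ℝ) + 2))) * (x + 2 - d + ((j : ℝ) + 2))
        = ((x - 3) * ((j : ℝ) + 2 + 1) - (4 + ((j : ℝ) + 2))) *
          ((x - 2) * (x + 2 - d + ((j : ℝ) + 2))) := by ring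
      _ ≤ (((j : ℝ) + 3) * (x - 4)) * ((x - 2) * (x + 2 - d + ((j : ℝ) + 2))) :=
          mul_le_mul_of_nonneg_right h1 h2
      _ = ((j : ℝ) + 3) * ((x - 2) * (x - 4) * (x + 2 - d + ((j : ℝ) + 2))) := by ring
      _ ≤ _ := mul_le_mul_of_nonneg_left h3 (by linarith)
  have hx2 : 0 < x - 2 - d := by linarith
  have hx4 : 0 < 4 - d := by linarith
  have hp : 0 < (x + 1 + ((j : ℝ) + 2)) * (x + 2 + ((j : ℝ) + 2)) * (x - 2 - d) := by
    have : 0 < x + 1 + ((j : ℝ) + 2) := by linarith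
    have : 0 < x + 2 + ((j : ℝ) + 2) := by linarith
    positivity
  have hF : (0 : ℝ) < ((j + 2 + 2).factorial : ℝ) := by exact_mod_cast Nat.factorial_pos _
  have e1 : (x - 2) * ((x - 3) * ((j : ℝ) + 2 + 1) - (4 + ((j : ℝ) + 2))) /
        (3 * (x + 1 + ((j : ℝ) + 2)) * (x + 2 + ((j : ℝ) + 2)) * ((j + 2 + 2).factorial : ℝ) *
          (4 + ((j : ℝ) + 2))) *
      ((x + 2 - d + ((j : ℝ) + 2)) / (x - 2 - d)) * ((d + ((j : ℝ) + 2)) / (4 - d)) =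
      ((x - 2) * ((x - 3) * ((j : ℝ) + 2 + 1) - (4 + ((j : ℝ) + 2))) * (x + 2 - d + ((j : ℝ) + 2)) /
        ((x + 1 + ((j : ℝ) + 2)) * (x + 2 + ((j : ℝ) + 2)) * (x - 2 - d))) *
      ((d + ((j : ℝ) + 2)) / (3 * (4 + ((j : ℝ) + 2)) * (4 - d)) / ((j + 2 + 2).factorial : ℝ)) := by
    have n1 : x + 1 + ((j : ℝ) + 2) ≠ 0 := by
      have : 0 < x + 1 + ((j : ℝ) + 2) := by linarith
      exact this.ne'
    have n2 : x + 2 + ((j : ℝ) + 2) ≠ 0 := by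
      have : 0 < x + 2 + ((j : ℝ) + 2) := by linarith
      exact this.ne'
    have n3 : 4 + ((j : ℝ) + 2) ≠ 0 := by positivity
    field_simp
  rw [e1]
  have h5 : (x - 2) * ((x - 3) * ((j : ℝ) + 2 + 1) - (4 + ((j : ℝ) + 2))) *
      (x + 2 - d + ((j : ℝ) + 2)) /
        ((x + 1 + ((j : ℝ) + 2)) * (x + 2 + ((j : ℝ) + 2)) * (x - 2 - d)) ≤ (j : ℝ) + 3 := by
    rw [div_le_iff₀ hp]
    exact hA
  have h6 : (d + ((j : ℝ) + 2)) / (3 * (4 + ((j : ℝ) + 2)) * (4 - d)) / ((j + 2 + 2).factorial : ℝ) ≤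
      (d + ((j : ℝ) + 2)) / (3 * (4 + ((j : ℝ) + 2)) * (4 - d)) / (24 * 5 ^ j) :=
    div_le_div_of_nonneg_left (by positivity) (by positivity) hfac
  have h7 : 0 ≤ (d + ((j : ℝ) + 2)) / (3 * (4 + ((j : ℝ) + 2)) * (4 - d)) /
      ((j + 2 + 2).factorial : ℝ) := by positivity
  refine (mul_le_mul_of_nonneg_right h5 h7).trans
    ((mul_le_mul_of_nonneg_left h6 (by positivity)).trans ?_)
  unfold al4
  have e5 : ((2 : ℝ) / 5) ^ j = 2 ^ j / 5 ^ j := div_pow _ _ _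
  rw [e5, div_div, ← mul_div_assoc, div_mul_div_comm, div_le_div_iff₀ (by positivity) (by positivity)]
  have key : 2 * ((j : ℝ) + 3) * (d + 2 + j) ≤ (d + 2) * (j + 6) * 2 ^ j := by
    have h8 : (d + 2) * ((j : ℝ) + 6) * (1 + j) ≤ (d + 2) * (j + 6) * 2 ^ j :=
      mul_le_mul_of_nonneg_left h2j (by positivity)
    nlinarith [mul_nonneg hj hj, mul_nonneg hd0 hj, mul_nonneg hd0 (mul_nonneg hj hj)]
  have hk : 0 ≤ 72 * (4 - d) * 5 ^ j := by positivity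
  calc ((j : ℝ) + 3) * (d + ((j : ℝ) + 2)) * (144 * (4 - d) * 5 ^ j)
      = (2 * ((j : ℝ) + 3) * (d + 2 + j)) * (72 * (4 - d) * 5 ^ j) := by ring
    _ ≤ ((d + 2) * (j + 6) * 2 ^ j) * (72 * (4 - d) * 5 ^ j) := mul_le_mul_of_nonneg_right key hk
    _ = _ := by ring

/-- the tail of the second part -/
theorem tail_B {x d : ℝ} (hx : 21 ≤ x) (hd0 : 0 ≤ d) (hd3 : d ≤ 3) (j : ℕ) :
    P0 x / (x + 3) ^ (j + 2) * ((2 * x ^ 2 + 1) * (((j + 2 : ℕ) : ℝ) + 1)) *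
      ((x + 2 - d + ((j + 2 : ℕ) : ℝ)) / (x - 2 - d)) * ((d + ((j + 2 : ℕ) : ℝ)) / (4 - d)) ≤
      be4 x d * (2 / 5) ^ j := by
  have hj : (0 : ℝ) ≤ j := Nat.cast_nonneg j
  have hP : 0 ≤ P0 x := by
    unfold P0
    have : 0 ≤ x - 2 := by linarith
    positivity
  have h2j : 1 + (j : ℝ) ≤ 2 ^ j := by
    have := one_add_mul_le_pow (by norm_num : (-2 : ℝ) ≤ 1) j
    norm_num at this
    linarith
  have hx2 : 0 < x - 2 - d := by linarith
  have hx4 : 0 < 4 - d := by linarith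
  have hx3 : 0 < x + 3 := by linarith
  push_cast
  have a1 : (j : ℝ) + 2 + 1 ≤ 3 * (1 + j) := by linarith
  have a2 : x + 2 - d + ((j : ℝ) + 2) ≤ (x + 4 - d) * (1 + j) := by nlinarith
  have a3 : d + ((j : ℝ) + 2) ≤ (d + 2) * (1 + j) := by nlinarith
  have a4 : (1 + (j : ℝ)) * (1 + j) * (1 + j) ≤ ((x + 3) * (2 / 5)) ^ j := by
    have b1 : (1 + (j : ℝ)) * (1 + j) * (1 + j) ≤ 2 ^ j * 2 ^ j * 2 ^ j := by gcongr
    have b2 : (2 : ℝ) ^ j * 2 ^ j * 2 ^ j = 8 ^ j := by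
      rw [← mul_pow, ← mul_pow]
      norm_num
    rw [b2] at b1
    exact b1.trans (pow_le_pow_left₀ (by norm_num) (by linarith) j)
  have a5 : ((j : ℝ) + 2 + 1) * (x + 2 - d + ((j : ℝ) + 2)) * (d + ((j : ℝ) + 2)) ≤
      (3 * (x + 4 - d) * (d + 2)) * ((x + 3) * (2 / 5)) ^ j := by
    have c1 : 0 ≤ x + 2 - d + ((j : ℝ) + 2) := by linarith
    have c2 : 0 ≤ x + 4 - d := by linarith
    calc ((j : ℝ) + 2 + 1) * (x + 2 - d + ((j : ℝ) + 2)) * (d + ((j : ℝ) + 2))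
        ≤ (3 * (1 + (j : ℝ))) * ((x + 4 - d) * (1 + j)) * ((d + 2) * (1 + j)) := by gcongr
      _ = (3 * (x + 4 - d) * (d + 2)) * ((1 + (j : ℝ)) * (1 + j) * (1 + j)) := by ring
      _ ≤ _ := mul_le_mul_of_nonneg_left a4 (by positivity)
  have e1 : P0 x / (x + 3) ^ (j + 2) * ((2 * x ^ 2 + 1) * ((j : ℝ) + 2 + 1)) *
      ((x + 2 - d + ((j : ℝ) + 2)) / (x - 2 - d)) * ((d + ((j : ℝ) + 2)) / (4 - d)) =
      (P0 x * (2 * x ^ 2 + 1) / ((x + 3) ^ (j + 2) * (x - 2 - d) * (4 - d))) *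
      (((j : ℝ) + 2 + 1) * (x + 2 - d + ((j : ℝ) + 2)) * (d + ((j : ℝ) + 2))) := by
    field_simp
  rw [e1]
  refine (mul_le_mul_of_nonneg_left a5 (by positivity)).trans (le_of_eq ?_)
  unfold be4
  rw [mul_pow, pow_add]
  field_simp

theorem geo_25 (N : ℕ) : ∑ j ∈ range N, ((2 : ℝ) / 5) ^ j ≤ 5 / 3 := by
  have h := geom_sum_eq (by norm_num : (2 / 5 : ℝ) ≠ 1) N
  rw [h]
  have : (0 : ℝ) ≤ (2 / 5) ^ N := by positivity
  rw [div_le_iff_of_neg (by norm_num)]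
  linarith

theorem sum_two_head {f : ℕ → ℝ} {c : ℝ} (h0 : ∀ k, 0 ≤ f k) (h : ∀ j, f (j + 2) ≤ c * (2 / 5) ^ j)
    (hc : 0 ≤ c) (N : ℕ) : ∑ k ∈ range N, f k ≤ f 0 + f 1 + 5 / 3 * c := by
  have h1 : ∑ k ∈ range N, f k ≤ ∑ k ∈ range (N + 2), f k :=
    sum_le_sum_of_subset_of_nonneg (range_subset_range.2 (by omega)) fun k _ _ => h0 k
  refine h1.trans ?_
  rw [sum_range_succ', sum_range_succ']
  have h2 : ∑ j ∈ range N, f (j + 1 + 1) ≤ ∑ j ∈ range N, c * (2 / 5) ^ j :=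
    sum_le_sum fun j _ => h j
  rw [← mul_sum] at h2
  have h3 := mul_le_mul_of_nonneg_left (geo_25 N) hc
  linarith

end Pool.JM.H5
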