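import Pool.Agent.Work.MP_46fa68_h5.RowFour

/-!
# MP_46fa68_co: row 2 in the layer `i = 4`: the classes `d = 0, 2, 3`
-/

set_option autoImplicit false

open Finset

namespace Pool.JM.H5

theorem y_eq {m M i b : ℕ} {d : ℝ} {B : Finset ℕ} (h : R2 m M i b d B) :
    tb (B.erase (tb B)) = M + m - i :=
  le_antisymm (Finset.sup_le fun y hy => h.hmax y hy) (mem_le_tb h.hx)

theorem P0_nonneg {x : ℝ} (hx : 2 ≤ x) : 0 ≤ P0 x := by
  unfold P0
  have : 0 ≤ x - 2 := by linarith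
  positivity

theorem bracket4_le {m : ℕ} (hm : 16 ≤ m) (k : ℕ) :
    ((k : ℝ) + 3) + g1m m * ((k : ℝ) + 2) + g2m m * ((k : ℝ) + 1) ≤
      (2 * (m : ℝ) ^ 2 + 1) * ((k : ℝ) + 1) := by
  have h := (le_abs_self _).trans (bracket_le (i := 4) hm (by norm_num) k)
  rw [show 4 - 1 + k = (k + 2) + 1 by omega, show 4 - 2 + k = (k + 1) + 1 by omega,
    show 4 - 3 + k = k + 1 by omega, Nat.choose_succ_self_right, Nat.choose_succ_self_right,
    Nat.choose_succ_self_right] at h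
  push_cast at h
  nlinarith

theorem bracket4_nonneg {m : ℕ} (hm : 16 ≤ m) (k : ℕ) :
    0 ≤ ((k : ℝ) + 3) + g1m m * ((k : ℝ) + 2) + g2m m * ((k : ℝ) + 1) := by
  have h := bracket_nonneg (i := 4) hm (by norm_num) (by omega) k
  rw [show 4 - 1 + k = (k + 2) + 1 by omega, show 4 - 2 + k = (k + 1) + 1 by omega,
    show 4 - 3 + k = k + 1 by omega, Nat.choose_succ_self_right, Nat.choose_succ_self_right,
    Nat.choose_succ_self_right] at h
  push_cast at h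
  linarith

theorem sum4_le {m M b : ℕ} {d : ℝ} {B : Finset ℕ} (h : R2 m M 4 b d B) (hm : 21 ≤ m)
    (hd : d = 0 ∨ d = 2 ∨ d = 3) (N : ℕ) :
    ∑ k ∈ range N, kapB m 4 k * ((d + k) / (4 - d)) * Rr (B.erase (tb B)) (M + m - 4) (4 + k) ≤
      S40 m (g1m m) (g2m m) d + S41 m (g1m m) (g2m m) d + 5 / 3 * (al4 d + be4 m d) := by
  have hmR : (21 : ℝ) ≤ m := by exact_mod_cast hm
  have hd0 : 0 ≤ d := by rcases hd with rfl | rfl | rfl <;> norm_num
  have hd3 : d ≤ 3 := by rcases hd with rfl | rfl | rfl <;> norm_num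
  have hd4 : 0 < 4 - d := by linarith
  have hmd : 0 < (m : ℝ) - 2 - d := by linarith
  have hab := h.hab_near (by omega)
  have hP := P0_nonneg (x := (m : ℝ)) (by linarith)
  -- the majorant
  have hf : ∀ k : ℕ, kapB m 4 k * ((d + k) / (4 - d)) * Rr (B.erase (tb B)) (M + m - 4) (4 + k) ≤
      (((m : ℝ) - 2) * (((m : ℝ) - 3) * (k + 1) - (4 + k)) /
        (3 * ((m : ℝ) + 1 + k) * ((m : ℝ) + 2 + k) * ((k + 2).factorial : ℝ) * (4 + k)) +
       P0 m / ((m : ℝ) + 3) ^ k *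
        (((k : ℝ) + 3) + g1m m * ((k : ℝ) + 2) + g2m m * ((k : ℝ) + 1))) *
      (((m : ℝ) + 2 - d + k) / ((m : ℝ) - 2 - d)) * ((d + k) / (4 - d)) := by
    intro k
    have q := h.Qk_le hab k
    rw [show m + 2 - 4 = m - 2 by omega] at q
    have e0 : ((4 : ℕ) : ℝ) = 4 := by norm_num
    rw [e0, show (m : ℝ) + 6 - 4 - d + k = m + 2 - d + k by ring,
      show (m : ℝ) + 6 - 2 * 4 - d = m - 2 - d by ring] at q
    have hB := kapB_nonneg (i := 4) (by omega : 16 ≤ m) (by norm_num) (by omega) k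
    have hk : (0 : ℝ) ≤ k := Nat.cast_nonneg k
    have hw : 0 ≤ (d + k) / (4 - d) := by positivity
    have hv : 0 ≤ ((m : ℝ) + 2 - d + k) / ((m : ℝ) - 2 - d) :=
      div_nonneg (by linarith) hmd.le
    have h1 : kapB m 4 k * (((m - 2).factorial : ℝ) / ((m + 2 + k).factorial : ℝ)) ≤
        ((m : ℝ) - 2) * (((m : ℝ) - 3) * (k + 1) - (4 + k)) /
        (3 * ((m : ℝ) + 1 + k) * ((m : ℝ) + 2 + k) * ((k + 2).factorial : ℝ) * (4 + k)) +
       P0 m / ((m : ℝ) + 3) ^ k *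
        (((k : ℝ) + 3) + g1m m * ((k : ℝ) + 2) + g2m m * ((k : ℝ) + 1)) := by
      rw [kapB_four (by omega), add_mul, fac_A (by omega)]
      refine add_le_add le_rfl ?_
      have h2 := mul_le_mul_of_nonneg_right (fac_Bk (m := m) (by omega) k)
        (bracket4_nonneg (m := m) (by omega) k)
      refine le_trans (le_of_eq ?_) h2
      ring
    calc kapB m 4 k * ((d + k) / (4 - d)) * Rr (B.erase (tb B)) (M + m - 4) (4 + k)
        ≤ kapB m 4 k * ((d + k) / (4 - d)) *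
          (((m - 2).factorial : ℝ) / ((m + 2 + k).factorial : ℝ) *
            (((m : ℝ) + 2 - d + k) / ((m : ℝ) - 2 - d))) :=
          mul_le_mul_of_nonneg_left q (by positivity)
      _ = (kapB m 4 k * (((m - 2).factorial : ℝ) / ((m + 2 + k).factorial : ℝ))) *
          ((((m : ℝ) + 2 - d + k) / ((m : ℝ) - 2 - d)) * ((d + k) / (4 - d))) := by ring
      _ ≤ _ * ((((m : ℝ) + 2 - d + k) / ((m : ℝ) - 2 - d)) * ((d + k) / (4 - d))) :=
          mul_le_mul_of_nonneg_right h1 (by positivity)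
      _ = _ := by ring
  have hnn : ∀ k : ℕ, 0 ≤ kapB m 4 k * ((d + k) / (4 - d)) *
      Rr (B.erase (tb B)) (M + m - 4) (4 + k) := by
    intro k
    have hB := kapB_nonneg (i := 4) (by omega : 16 ≤ m) (by norm_num) (by omega) k
    have hq := h.Qpos (4 + k)
    have hw : 0 ≤ (d + k) / (4 - d) := by positivity
    positivity
  have hal : 0 ≤ al4 d := by
    unfold al4
    positivity
  have hbe : 0 ≤ be4 m d := by
    unfold be4
    have : 0 ≤ (m : ℝ) + 4 - d := by linarith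
    positivity
  refine (sum_two_head hnn (c := al4 d + be4 m d) ?_ (by linarith) N).trans ?_
  · intro j
    refine (hf (j + 2)).trans ?_
    have t1 := tail_A (x := (m : ℝ)) (d := d) (by linarith) hd j
    have t2 := tail_B (x := (m : ℝ)) (d := d) hmR hd0 hd3 j
    have hb4 := bracket4_le (m := m) (by omega) (j + 2)
    have hv : 0 ≤ ((m : ℝ) + 2 - d + ((j + 2 : ℕ) : ℝ)) / ((m : ℝ) - 2 - d) := by
      refine div_nonneg ?_ hmd.le
      have : (0 : ℝ) ≤ ((j + 2 : ℕ) : ℝ) := Nat.cast_nonneg _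
      linarith
    have hw : 0 ≤ (d + ((j + 2 : ℕ) : ℝ)) / (4 - d) := by positivity
    have h3 : P0 m / ((m : ℝ) + 3) ^ (j + 2) *
        ((((j + 2 : ℕ) : ℝ) + 3) + g1m m * (((j + 2 : ℕ) : ℝ) + 2) + g2m m * (((j + 2 : ℕ) : ℝ) + 1)) ≤
        P0 m / ((m : ℝ) + 3) ^ (j + 2) * ((2 * (m : ℝ) ^ 2 + 1) * (((j + 2 : ℕ) : ℝ) + 1)) :=
      mul_le_mul_of_nonneg_left hb4 (by positivity)
    have h4 := mul_le_mul_of_nonneg_right h3 (mul_nonneg hv hw)
    have h5 : (al4 d + be4 m d) * (2 / 5) ^ j = al4 d * (2 / 5) ^ j + be4 m d * (2 / 5) ^ j := by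
      ring
    rw [h5]
    refine le_trans (le_of_eq ?_) (add_le_add t1 (h4.trans (le_trans (le_of_eq ?_) t2)))
    · ring
    · ring
  · have h0 := hf 0
    have h1 := hf 1
    have e0 : (((m : ℝ) - 2) * (((m : ℝ) - 3) * (((0 : ℕ) : ℝ) + 1) - (4 + ((0 : ℕ) : ℝ))) /
        (3 * ((m : ℝ) + 1 + ((0 : ℕ) : ℝ)) * ((m : ℝ) + 2 + ((0 : ℕ) : ℝ)) *
          ((0 + 2).factorial : ℝ) * (4 + ((0 : ℕ) : ℝ))) +
       P0 m / ((m : ℝ) + 3) ^ 0 *
        ((((0 : ℕ) : ℝ) + 3) + g1m m * (((0 : ℕ) : ℝ) + 2) + g2m m * (((0 : ℕ) : ℝ) + 1))) *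
      (((m : ℝ) + 2 - d + ((0 : ℕ) : ℝ)) / ((m : ℝ) - 2 - d)) * ((d + ((0 : ℕ) : ℝ)) / (4 - d)) =
        S40 m (g1m m) (g2m m) d := by
      unfold S40
      norm_num [Nat.factorial]
      left
      left
      ring_nf
    have e1 : (((m : ℝ) - 2) * (((m : ℝ) - 3) * (((1 : ℕ) : ℝ) + 1) - (4 + ((1 : ℕ) : ℝ))) /
        (3 * ((m : ℝ) + 1 + ((1 : ℕ) : ℝ)) * ((m : ℝ) + 2 + ((1 : ℕ) : ℝ)) *
          ((1 + 2).factorial : ℝ) * (4 + ((1 : ℕ) : ℝ))) +
       P0 m / ((m : ℝ) + 3) ^ 1 *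
        ((((1 : ℕ) : ℝ) + 3) + g1m m * (((1 : ℕ) : ℝ) + 2) + g2m m * (((1 : ℕ) : ℝ) + 1))) *
      (((m : ℝ) + 2 - d + ((1 : ℕ) : ℝ)) / ((m : ℝ) - 2 - d)) * ((d + ((1 : ℕ) : ℝ)) / (4 - d)) =
        S41 m (g1m m) (g2m m) d := by
      unfold S41
      rw [show (m : ℝ) + 2 - d + ((1 : ℕ) : ℝ) = m + 3 - d by push_cast; ring]
      congr 2
      · norm_num [Nat.factorial]
        ring_nf
      · norm_num
    rw [e0] at h0
    rw [e1] at h1
    linarith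

end Pool.JM.H5
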