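import Pool.Agent.Work.MP_46fa68_h5.RowFour2

/-!
# MP_46fa68_co: row 2 in the layer `i = 4`: the numbers
-/

set_option autoImplicit false

open Finset

namespace Pool.JM.H5

/-- the coefficient of `1 - c` in the class `(2, 4)` -/
noncomputable def Y24 (x : ℝ) : ℝ :=
  (x - 3) / (2 * x) + (3 * x + 1) / (12 * x) - P0 x * (2 * x ^ 2 - 4 * x - 2) * (x / (x - 4)) -
    P0 x / (x + 3) * (4 * x ^ 2 - 5 * x - 3) * ((x + 1) / (x - 4)) * (3 / 2)

/-- the part without `c` in the class `(2, 4)` -/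
noncomputable def Z24 (x : ℝ) : ℝ :=
  P0 x * 3 * (x / (x - 4)) + P0 x / (x + 3) * 4 * ((x + 1) / (x - 4)) * (3 / 2) +
    (x - 2) * (x - 7) / (24 * (x + 1) * (x + 2)) * (x / (x - 4)) +
    (x - 2) * (2 * x - 11) / (90 * (x + 2) * (x + 3)) * ((x + 1) / (x - 4)) * (3 / 2) +
    5 / 3 * (al4 2 + be4 x 2)

theorem split24 (x c : ℝ) :
    c + (1 - c) * ((x - 3) / (2 * x)) + (1 - c) * ((3 * x + 1) / (12 * x)) -
      (S40 x (-(1 - c) * (3 * x + 1)) ((1 - c) * (2 * x * (x + 1))) 2 +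
        S41 x (-(1 - c) * (3 * x + 1)) ((1 - c) * (2 * x * (x + 1))) 2 + 5 / 3 * (al4 2 + be4 x 2)) =
      c + (1 - c) * Y24 x - Z24 x := by
  unfold S40 S41 Y24 Z24
  rw [show x + 2 - 2 = x by ring, show x - 2 - 2 = x - 4 by ring, show x + 3 - 2 = x + 1 by ring]
  ring

theorem Y24_le {x : ℝ} (hx : 21 ≤ x) : Y24 x ≤ 1 := by
  unfold Y24
  have hP := P0_nonneg (x := x) (by linarith)
  have h1 : 0 ≤ P0 x * (2 * x ^ 2 - 4 * x - 2) * (x / (x - 4)) := by
    have : 0 ≤ 2 * x ^ 2 - 4 * x - 2 := by nlinarith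
    have : 0 ≤ x - 4 := by linarith
    positivity
  have h2 : 0 ≤ P0 x / (x + 3) * (4 * x ^ 2 - 5 * x - 3) * ((x + 1) / (x - 4)) * (3 / 2) := by
    have : 0 ≤ 4 * x ^ 2 - 5 * x - 3 := by nlinarith
    have : 0 ≤ x - 4 := by linarith
    positivity
  have h3 : (x - 3) / (2 * x) ≤ 1 / 2 := by
    rw [div_le_div_iff₀ (by positivity) (by norm_num)]
    linarith
  have h4 : (3 * x + 1) / (12 * x) ≤ 1 / 2 := by
    rw [div_le_div_iff₀ (by positivity) (by norm_num)]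
    linarith
  linarith

theorem F24 {x : ℝ} (hx : 21 ≤ x) : 149 / 500 ≤ 1 / x + (1 - 1 / x) * Y24 x - Z24 x := by
  obtain ⟨s, rfl⟩ : ∃ s, x = s + 21 := ⟨x - 21, by ring⟩
  have hs : 0 ≤ s := by linarith
  have e : 1 / (s + 21) + (1 - 1 / (s + 21)) * Y24 (s + 21) - Z24 (s + 21) - 149 / 500 =
      (554 * s ^ 7 + 77458 * s ^ 6 + 4510486 * s ^ 5 + 140496992 * s ^ 4 + 2486274786 * s ^ 3 +
        24149938572 * s ^ 2 + 108981741024 * s + 115697545128) /
        (27000 * ((s + 21) ^ 2 * (s + 22) * (s + 23) * (s + 24) ^ 2 * (s + 17))) := by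
    unfold Y24 Z24 al4 be4 P0
    rw [show s + 21 - 3 = s + 18 by ring, show s + 21 - 4 = s + 17 by ring,
      show s + 21 + 3 = s + 24 by ring, show s + 21 + 1 = s + 22 by ring,
      show s + 21 + 2 = s + 23 by ring, show s + 21 - 2 = s + 19 by ring,
      show s + 21 - 7 = s + 14 by ring, show s + 19 - 2 = s + 17 by ring,
      show s + 21 + 4 - 2 = s + 23 by ring]
    field_simp
    ring
  have h5 : 0 ≤ (554 * s ^ 7 + 77458 * s ^ 6 + 4510486 * s ^ 5 + 140496992 * s ^ 4 +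
      2486274786 * s ^ 3 + 24149938572 * s ^ 2 + 108981741024 * s + 115697545128) /
        (27000 * ((s + 21) ^ 2 * (s + 22) * (s + 23) * (s + 24) ^ 2 * (s + 17))) := by
    positivity
  linarith

/-- the coefficient of `1 - c` in the class `(3, 4)` -/
noncomputable def Y34 (x : ℝ) : ℝ :=
  (3 * x + 1) / (3 * x) - P0 x * (2 * x ^ 2 - 4 * x - 2) * ((x - 1) / (x - 5)) * 3 -
    P0 x / (x + 3) * (4 * x ^ 2 - 5 * x - 3) * (x / (x - 5)) * 4

/-- the part without `c` in the class `(3, 4)` -/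
noncomputable def Z34 (x : ℝ) : ℝ :=
  ((x - 2) * (x - 7) / (24 * (x + 1) * (x + 2)) + P0 x * 3) * ((x - 1) / (x - 5)) * 3 +
    ((x - 2) * (2 * x - 11) / (90 * (x + 2) * (x + 3)) + P0 x / (x + 3) * 4) * (x / (x - 5)) * 4 +
    5 / 3 * (al4 3 + be4 x 3)

theorem split34 (x c : ℝ) :
    (1 - c) * ((3 * x + 1) / (3 * x)) -
      (S40 x (-(1 - c) * (3 * x + 1)) ((1 - c) * (2 * x * (x + 1))) 3 +
        S41 x (-(1 - c) * (3 * x + 1)) ((1 - c) * (2 * x * (x + 1))) 3 + 5 / 3 * (al4 3 + be4 x 3)) =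
      (1 - c) * Y34 x - Z34 x := by
  unfold S40 S41 Y34 Z34
  rw [show x + 2 - 3 = x - 1 by ring, show x - 2 - 3 = x - 5 by ring, show x + 3 - 3 = x by ring]
  ring

theorem Y34_nonneg {x : ℝ} (hx : 21 ≤ x) : 0 ≤ Y34 x := by
  obtain ⟨s, rfl⟩ : ∃ s, x = s + 21 := ⟨x - 21, by ring⟩
  have hs : 0 ≤ s := by linarith
  have e : Y34 (s + 21) = (4 * s ^ 4 + 324 * s ^ 3 + 9348 * s ^ 2 + 111868 * s + 449376) /
        (6 * ((s + 21) * (s + 22) * (s + 23) * (s + 24) * (s + 16))) := by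
    unfold Y34 P0
    rw [show s + 21 - 5 = s + 16 by ring, show s + 21 - 1 = s + 20 by ring,
      show s + 21 + 3 = s + 24 by ring, show s + 21 + 1 = s + 22 by ring,
      show s + 21 + 2 = s + 23 by ring, show s + 21 - 2 = s + 19 by ring]
    field_simp
    ring
  rw [e]
  positivity

theorem Z34_le {x : ℝ} (hx : 21 ≤ x) : Z34 x ≤ 39 / 100 := by
  obtain ⟨s, rfl⟩ : ∃ s, x = s + 21 := ⟨x - 21, by ring⟩
  have hs : 0 ≤ s := by linarith
  have e : 39 / 100 - Z34 (s + 21) = (1277 * s ^ 6 + 184010 * s ^ 5 + 10763263 * s ^ 4 +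
      328721770 * s ^ 3 + 5545147128 * s ^ 2 + 49072038120 * s + 178136964432) /
        (10800 * ((s + 21) * (s + 22) * (s + 23) * (s + 24) ^ 2 * (s + 16))) := by
    unfold Z34 al4 be4 P0
    rw [show s + 21 - 5 = s + 16 by ring, show s + 21 - 1 = s + 20 by ring,
      show s + 21 + 3 = s + 24 by ring, show s + 21 + 1 = s + 22 by ring,
      show s + 21 + 2 = s + 23 by ring, show s + 21 - 2 = s + 19 by ring,
      show s + 21 - 7 = s + 14 by ring, show s + 19 - 3 = s + 16 by ring,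
      show s + 21 + 4 - 3 = s + 22 by ring]
    field_simp
    ring
  have h5 : 0 ≤ (1277 * s ^ 6 + 184010 * s ^ 5 + 10763263 * s ^ 4 +
      328721770 * s ^ 3 + 5545147128 * s ^ 2 + 49072038120 * s + 178136964432) /
        (10800 * ((s + 21) * (s + 22) * (s + 23) * (s + 24) ^ 2 * (s + 16))) := by
    positivity
  linarith

/-- the coefficient of `1 - c` in the class `(0, 4)` -/
noncomputable def Y04 (x : ℝ) : ℝ :=
  (3 * x + 1) / (24 * x) + P0 x / (x + 3) * (4 * x ^ 2 - 5 * x - 3) * ((x + 3) / (x - 2)) * (1 / 4)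

/-- the part without `c` in the class `(0, 4)` -/
noncomputable def Z04 (x : ℝ) : ℝ :=
  ((x - 2) * (2 * x - 11) / (90 * (x + 2) * (x + 3)) + P0 x / (x + 3) * 4) *
    ((x + 3) / (x - 2)) * (1 / 4) + 5 / 3 * (al4 0 + be4 x 0)

theorem split04 (x c : ℝ) :
    (1 - c) * ((3 * x + 1) / (24 * x)) +
      (S40 x (-(1 - c) * (3 * x + 1)) ((1 - c) * (2 * x * (x + 1))) 0 +
        S41 x (-(1 - c) * (3 * x + 1)) ((1 - c) * (2 * x * (x + 1))) 0 + 5 / 3 * (al4 0 + be4 x 0)) =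
      (1 - c) * Y04 x + Z04 x := by
  unfold S40 S41 Y04 Z04
  rw [show x + 3 - 0 = x + 3 by ring, show x - 2 - 0 = x - 2 by ring]
  ring

theorem Y04_nonneg {x : ℝ} (hx : 21 ≤ x) : 0 ≤ Y04 x := by
  unfold Y04
  have hP := P0_nonneg (x := x) (by linarith)
  have : 0 ≤ 4 * x ^ 2 - 5 * x - 3 := by nlinarith
  have : 0 ≤ x - 2 := by linarith
  positivity

theorem F04 {x : ℝ} (hx : 21 ≤ x) : (1 - 1 / x) * Y04 x + Z04 x ≤ 139 / 1000 := by
  obtain ⟨s, rfl⟩ : ∃ s, x = s + 21 := ⟨x - 21, by ring⟩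
  have hs : 0 ≤ s := by linarith
  have e : 139 / 1000 - ((1 - 1 / (s + 21)) * Y04 (s + 21) + Z04 (s + 21)) =
      (287 * s ^ 7 + 39698 * s ^ 6 + 2315698 * s ^ 5 + 73711312 * s ^ 4 + 1379346723 * s ^ 3 +
        15121270602 * s ^ 2 + 89463183192 * s + 218640382488) /
        (108000 * ((s + 21) ^ 2 * (s + 22) * (s + 23) * (s + 24) ^ 2 * (s + 19))) := by
    unfold Y04 Z04 al4 be4 P0
    rw [show s + 21 + 3 = s + 24 by ring, show s + 21 + 1 = s + 22 by ring,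
      show s + 21 + 2 = s + 23 by ring, show s + 21 - 2 = s + 19 by ring,
      show s + 19 - 0 = s + 19 by ring, show s + 21 + 4 - 0 = s + 25 by ring]
    field_simp
    ring
  have h5 : 0 ≤ (287 * s ^ 7 + 39698 * s ^ 6 + 2315698 * s ^ 5 + 73711312 * s ^ 4 +
        1379346723 * s ^ 3 + 15121270602 * s ^ 2 + 89463183192 * s + 218640382488) /
        (108000 * ((s + 21) ^ 2 * (s + 22) * (s + 23) * (s + 24) ^ 2 * (s + 19))) := by
    positivity
  linarith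

end Pool.JM.H5
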