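import Pool.Agent.Work.MP_46fa68_h5.Row
import Pool.Agent.Work.MP_46fa68_h4.Lay2

/-!
# MP_46fa68_co: row 2: data, the ratio of its moves, the two parts of `Cr`
-/

set_option autoImplicit false

open Finset

namespace Pool.JM.H5

/-- the two longest rows: `l`, `a`; `b` boxes below -/
theorem two_data {m M : ℕ} (hM : 1 ≤ M) {B : Finset ℕ} (hB : B ∈ Lv (M + 1) (m + (m - 3))) :
    ∃ l a b : ℕ, tb B = M + l ∧ tb (B.erase (tb B)) = M - 1 + a ∧ l + a + b = m + (m - 3) ∧ a ≤ l ∧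
      tb B ∈ B ∧ M - 1 + a ∈ B.erase (tb B) ∧ (∀ y ∈ B.erase (tb B), y ≤ M - 1 + a) ∧
      ((B.erase (tb B)).erase (M - 1 + a)).card = M - 1 ∧
      ∑ y ∈ (B.erase (tb B)).erase (M - 1 + a), y = ∑ y ∈ range (M - 1), y + b ∧
      ∀ y ∈ (B.erase (tb B)).erase (M - 1 + a), y < M - 1 + a := by
  have hc := (Lv_spec hB).1
  have hne : B.Nonempty := card_pos.1 (by omega)
  have hT := tb_memB hne
  obtain ⟨l, n1, h1, h2, h3, h4, h5⟩ := top_spec hB hT fun y hy => mem_le_tb hy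
  obtain ⟨k, rfl⟩ : ∃ k, M = k + 1 := ⟨M - 1, by omega⟩
  have hC : B.erase (tb B) ∈ Lv (k + 1) n1 := mem_Lv_iff.2 ⟨h3, h4⟩
  have hne2 : (B.erase (tb B)).Nonempty := card_pos.1 (by omega)
  have hx := tb_memB hne2
  obtain ⟨a, b, g1, g2, g3, g4, g5⟩ := top_spec hC hx fun y hy => mem_le_tb hy
  rw [Nat.add_sub_cancel]
  refine ⟨l, a, b, h1, g1, by omega, ?_, hT, by rw [← g1]; exact hx, fun y hy => ?_, ?_, ?_, ?_⟩
  · have := h5 _ hx
    omega
  · rw [← g1]
    exact mem_le_tb hy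
  · rw [← g1]
    exact g3
  · rw [← g1]
    exact g4
  · rw [← g1]
    intro y hy
    have := g5 y hy
    omega

/-- the ratio with the bead above split off -/
theorem Rr_two {B : Finset ℕ} {x : ℕ} (hT : tb B ∈ B) (hx : x ∈ B.erase (tb B)) (p : ℕ) :
    Rr B x p = (((x : ℝ) + p - tb B) / ((x : ℝ) - tb B)) * Rr (B.erase (tb B)) x p := by
  have h1 : tb B ∈ B.erase x := mem_erase.2 ⟨fun h => (mem_erase.1 hx).1 h.symm, hT⟩
  unfold Rr
  rw [← mul_prod_erase (B.erase x) _ h1, erase_right_comm]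
  ring

/-- lower bound of the ratio -/
theorem Rr_ge_fact {k a b : ℕ} {C : Finset ℕ} (hc : (C.erase (k + a)).card = k)
    (hs : ∑ y ∈ C.erase (k + a), y = ∑ y ∈ range k, y + b)
    (hb : ∀ y ∈ C.erase (k + a), y < k + a) (hmax : ∀ y ∈ C, y ≤ k + a) (p : ℕ) :
    (a.factorial : ℝ) / ((a + p).factorial : ℝ) ≤ Rr C (k + a) p := by
  induction p with
  | zero =>
    rw [Rr_zero, add_zero, div_self (by exact_mod_cast Nat.factorial_ne_zero _)]
  | succ p ih =>
    have h1 := Rr_ratio_ge hc hs hb hmax p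
    have h2 : ((a + (p + 1)).factorial : ℝ) = ((a : ℝ) + p + 1) * ((a + p).factorial : ℝ) := by
      rw [← add_assoc, Nat.factorial_succ]
      push_cast
      ring
    have f1 : (0 : ℝ) < ((a + p).factorial : ℝ) := by exact_mod_cast Nat.factorial_pos _
    rw [h2, div_le_iff₀ (by positivity)]
    rw [div_le_iff₀ f1] at ih
    calc (a.factorial : ℝ) ≤ Rr C (k + a) p * ((a + p).factorial : ℝ) := ih
      _ ≤ (Rr C (k + a) (p + 1) * ((a : ℝ) + p + 1)) * ((a + p).factorial : ℝ) :=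
          mul_le_mul_of_nonneg_right h1 f1.le
      _ = _ := by ring

/-- the first coefficient (with sign) -/
noncomputable def kapA (m i : ℕ) : ℝ :=
  ((m + i - 5).factorial : ℝ) / (((i - 1).factorial : ℝ) * ((m - 3).factorial : ℝ)) * -g1m m

/-- the coefficients `n = k + 2` (with sign) -/
noncomputable def kapB (m i k : ℕ) : ℝ :=
  Abin (m - 3) i (i + k) +
    ((m + i - 5).factorial : ℝ) / (((i - 1).factorial : ℝ) * ((m - 3).factorial : ℝ)) *
      (((i - 1 + k).choose (k + 2) : ℝ) + g1m m * ((i - 2 + k).choose (k + 1) : ℝ) +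
        g2m m * ((i - 3 + k).choose k : ℝ))

/-- **The contribution of row 2.** -/
theorem neg_Cr_two {m M i A : ℕ} (hm : 4 ≤ m) (hi : 3 ≤ i) (hiM : i ≤ M + m) (hiA : i ≤ A)
    {B : Finset ℕ} (hT : tb B ∈ B) {x : ℕ} (hx : x ∈ B.erase (tb B)) (hxi : x = M + m - i) {d : ℝ}
    (hd : d = (M : ℝ) + m - tb B) :
    -Cr m A (M + m) B x = (-1) ^ i *
      (kapA m i * ((d - 1) / ((i : ℝ) - d)) * Rr (B.erase (tb B)) x (i - 1) -
        ∑ k ∈ range (A + 1 - i), kapB m i k * ((d + k) / ((i : ℝ) - d)) *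
          Rr (B.erase (tb B)) x (i + k)) := by
  have hxR : (x : ℝ) = (M : ℝ) + m - i := by
    rw [hxi, Nat.cast_sub hiM]
    push_cast
    ring
  have hne : (x : ℝ) - tb B ≠ 0 := by
    have h1 : x ≠ tb B := (mem_erase.1 hx).1
    rw [sub_ne_zero]
    exact_mod_cast h1
  have e0 : (x : ℝ) - tb B = -((i : ℝ) - d) := by
    rw [hxR, hd]
    ring
  have hne2 : (i : ℝ) - d ≠ 0 := by
    intro h
    rw [h, neg_zero] at e0
    exact hne e0
  unfold Cr
  obtain ⟨N, hN⟩ : ∃ N, A + 1 = i + N := ⟨A + 1 - i, by omega⟩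
  rw [hN, Nat.add_sub_cancel_left, sum_range_add]
  have s1 : ∑ p ∈ range i, kh m (M + m) x p * Rr B x p =
      kh m (M + m) x (i - 1) * Rr B x (i - 1) := by
    obtain ⟨j, hj⟩ : ∃ j, i = j + 1 := ⟨i - 1, by omega⟩
    rw [hj, sum_range_succ, Nat.add_sub_cancel, sum_eq_zero, zero_add]
    intro p hp
    have hp' := mem_range.1 hp
    rw [kh_lt (by omega), zero_mul]
  rw [s1]
  have h1 := kh_one (M0 := M + m) hm hi hiM
  rw [gR_eq hm (by omega), ← hxi] at h1
  rw [h1, Rr_two hT hx]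
  have e1 : (((x : ℝ) + ((i - 1 : ℕ) : ℝ) - tb B) / ((x : ℝ) - tb B)) = -((d - 1) / ((i : ℝ) - d)) := by
    rw [e0, Nat.cast_sub (by omega), hxR, hd]
    have h5 : (i : ℝ) - ((M : ℝ) + m - tb B) ≠ 0 := by rwa [hd] at hne2
    push_cast
    field_simp
    ring
  rw [e1]
  have s2 : ∀ k ∈ range N, kh m (M + m) x (i + k) * Rr B x (i + k) =
      (-1) ^ i * (kapB m i k * ((d + k) / ((i : ℝ) - d)) * Rr (B.erase (tb B)) x (i + k)) := by
    intro k _
    have h2 := kh_two (M0 := M + m) hm hi hiM k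
    rw [gR_eq hm (by omega), ← hxi] at h2
    rw [h2, Rr_two hT hx]
    have e2 : (((x : ℝ) + ((i + k : ℕ) : ℝ) - tb B) / ((x : ℝ) - tb B)) =
        -((d + k) / ((i : ℝ) - d)) := by
      rw [e0, hxR, hd]
      have h5 : (i : ℝ) - ((M : ℝ) + m - tb B) ≠ 0 := by rwa [hd] at hne2
      push_cast
      field_simp
      ring
    rw [e2]
    unfold kapB
    ring
  rw [sum_congr rfl s2, ← mul_sum]
  unfold kapA
  ring

end Pool.JM.H5
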