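import Pool.Agent.Work.MP_46fa68_h5.RowQ

/-!
# MP_46fa68_co: row 2 in the odd layers: only the first term can hurt
-/

set_option autoImplicit false

open Finset

namespace Pool.JM.H5

/-- the bound of the first term -/
noncomputable def T1u (m i : ℕ) (d : ℝ) : ℝ :=
  ((m + i - 5).factorial : ℝ) / (((i - 1).factorial : ℝ) * ((m - 3).factorial : ℝ)) *
    (3 * (m : ℝ) - 2) * ((d - 1) / ((i : ℝ) - d)) *
    (((m + 2 - i).factorial : ℝ) / ((m + 1).factorial : ℝ) *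
      (((m : ℝ) + 5 - i - d) / ((m : ℝ) + 6 - 2 * i - d)))

namespace R2

variable {m M i b : ℕ} {d : ℝ} {B : Finset ℕ}

theorem T1_le (h : R2 m M i b d B) (hm : 16 ≤ m) (h3 : 3 * i ≤ m + 6) (hd1 : 1 ≤ d) :
    kapA m i * ((d - 1) / ((i : ℝ) - d)) * Rr (B.erase (tb B)) (M + m - i) (i - 1) ≤ T1u m i d := by
  have hab := h.hab_near h3
  have q := h.Q1_le hab
  have hq0 := h.Qpos (i - 1)
  have h1 := h.di_pos
  have h2 : 0 ≤ (d - 1) / ((i : ℝ) - d) := div_nonneg (by linarith) (by linarith)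
  have hmR : (16 : ℝ) ≤ m := by exact_mod_cast hm
  have h5 : 0 ≤ 3 * (m : ℝ) - 2 := by linarith
  unfold T1u
  refine mul_le_mul (mul_le_mul_of_nonneg_right (kapA_le hm) h2) q hq0 ?_
  positivity

theorem low_odd (h : R2 m M i b d B) (hm : 16 ≤ m) {A : ℕ} (hiA : i ≤ A) (ho : Odd i)
    (h3 : 3 * i ≤ m + 6) (hd1 : 1 ≤ d) : -T1u m i d ≤ -Cr m A (M + m) B (M + m - i) := by
  have h1 := h.lower_odd hm hiA ho h3 (by linarith)
  have h2 := h.T1_le hm h3 hd1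
  linarith

end R2

theorem fac_m (m : ℕ) : ((m + 1).factorial : ℝ) = ((m : ℝ) + 1) * (m.factorial : ℝ) := by
  rw [Nat.factorial_succ]
  push_cast
  ring

theorem T1u_5 {m : ℕ} (hm : 16 ≤ m) (d : ℝ) : T1u m 5 d =
    (3 * (m : ℝ) - 2) / (24 * (m + 1)) * ((d - 1) / (5 - d)) * (((m : ℝ) - d) / ((m : ℝ) - 4 - d)) := by
  unfold T1u
  rw [show m + 5 - 5 = m by omega, show m + 2 - 5 = m - 3 by omega, fac_m]
  have f0 : (0 : ℝ) < ((m - 3).factorial : ℝ) := by exact_mod_cast Nat.factorial_pos _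
  have f1 : (0 : ℝ) < (m.factorial : ℝ) := by exact_mod_cast Nat.factorial_pos _
  norm_num [Nat.factorial]
  rw [show (m : ℝ) + 6 - 10 - d = m - 4 - d by ring]
  field_simp

theorem T1u_52 {m : ℕ} (hm : 21 ≤ m) : T1u m 5 2 ≤ 1 / 20 := by
  rw [T1u_5 (by omega)]
  have hmR : (21 : ℝ) ≤ m := by exact_mod_cast hm
  have e1 : (3 * (m : ℝ) - 2) / (24 * (m + 1)) * ((2 - 1) / (5 - 2)) * (((m : ℝ) - 2) / ((m : ℝ) - 4 - 2)) =
      (3 * (m : ℝ) - 2) * (m - 2) / (72 * (m + 1) * (m - 6)) := by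
    have : (m : ℝ) - 6 ≠ 0 := by
      have : (0 : ℝ) < (m : ℝ) - 6 := by linarith
      exact this.ne'
    rw [show (m : ℝ) - 4 - 2 = m - 6 by ring]
    field_simp
    ring
  rw [e1, div_le_div_iff₀ (by
    have : (0 : ℝ) < (m : ℝ) - 6 := by linarith
    positivity) (by norm_num)]
  nlinarith

theorem T1u_53 {m : ℕ} (hm : 21 ≤ m) : T1u m 5 3 ≤ 3 / 20 := by
  rw [T1u_5 (by omega)]
  have hmR : (21 : ℝ) ≤ m := by exact_mod_cast hm
  have e1 : (3 * (m : ℝ) - 2) / (24 * (m + 1)) * ((3 - 1) / (5 - 3)) * (((m : ℝ) - 3) / ((m : ℝ) - 4 - 3)) =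
      (3 * (m : ℝ) - 2) * (m - 3) / (24 * (m + 1) * (m - 7)) := by
    have : (m : ℝ) - 7 ≠ 0 := by
      have : (0 : ℝ) < (m : ℝ) - 7 := by linarith
      exact this.ne'
    rw [show (m : ℝ) - 4 - 3 = m - 7 by ring]
    field_simp
    ring
  rw [e1, div_le_div_iff₀ (by
    have : (0 : ℝ) < (m : ℝ) - 7 := by linarith
    positivity) (by norm_num)]
  nlinarith

theorem poly_76 {x : ℝ} (hx : 21 ≤ x) :
    5 * (x + 2) * (3 * x - 2) * (x - 8) / (720 * (x - 3) * (x - 4) * (x - 14)) ≤ 3 / 50 := by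
  obtain ⟨s, rfl⟩ : ∃ s, x = s + 21 := ⟨x - 21, by ring⟩
  have hs : 0 ≤ s := by linarith
  have hpos : 0 < 720 * (s + 21 - 3) * (s + 21 - 4) * (s + 21 - 14) := by
    rw [show s + 21 - 3 = s + 18 by ring, show s + 21 - 4 = s + 17 by ring,
      show s + 21 - 14 = s + 7 by ring]
    positivity
  rw [div_le_iff₀ hpos]
  have e4 : 3 / 50 * (720 * (s + 21 - 3) * (s + 21 - 4) * (s + 21 - 14)) -
      5 * (s + 21 + 2) * (3 * (s + 21) - 2) * (s + 21 - 8) =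
      (1410 * s ^ 3 + 48470 * s ^ 2 + 416910 * s + 66970) / 50 := by ring
  have h5 : 0 ≤ (1410 * s ^ 3 + 48470 * s ^ 2 + 416910 * s + 66970) / 50 := by positivity
  linarith

theorem poly_98 {x : ℝ} (hx : 21 ≤ x) :
    7 * (x + 4) * (x + 3) * (x + 2) * (3 * x - 2) * (x - 12) /
      (40320 * (x - 3) * (x - 4) * (x - 5) * (x - 6) * (x - 20)) ≤ 1 / 50 := by
  obtain ⟨s, rfl⟩ : ∃ s, x = s + 21 := ⟨x - 21, by ring⟩
  have hs : 0 ≤ s := by linarith
  have hpos : 0 < 40320 * (s + 21 - 3) * (s + 21 - 4) * (s + 21 - 5) * (s + 21 - 6) *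
      (s + 21 - 20) := by
    rw [show s + 21 - 3 = s + 18 by ring, show s + 21 - 4 = s + 17 by ring,
      show s + 21 - 5 = s + 16 by ring, show s + 21 - 6 = s + 15 by ring,
      show s + 21 - 20 = s + 1 by ring]
    positivity
  rw [div_le_iff₀ hpos]
  have e4 : 1 / 50 * (40320 * (s + 21 - 3) * (s + 21 - 4) * (s + 21 - 5) * (s + 21 - 6) *
      (s + 21 - 20)) -
      7 * (s + 21 + 4) * (s + 21 + 3) * (s + 21 + 2) * (3 * (s + 21) - 2) * (s + 21 - 12) =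
      (39270 * s ^ 5 + 2595040 * s ^ 4 + 64199940 * s ^ 3 + 705409040 * s ^ 2 +
        2925381270 * s + 309430800) / 50 := by ring
  have h5 : 0 ≤ (39270 * s ^ 5 + 2595040 * s ^ 4 + 64199940 * s ^ 3 + 705409040 * s ^ 2 +
        2925381270 * s + 309430800) / 50 := by positivity
  linarith

theorem fac_sub {m j : ℕ} (h : j + 1 ≤ m) :
    ((m - j).factorial : ℝ) = ((m : ℝ) - j) * ((m - (j + 1)).factorial : ℝ) := by
  rw [show m - j = (m - (j + 1)) + 1 by omega, Nat.factorial_succ]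
  push_cast
  rw [Nat.cast_sub h]
  push_cast
  ring

theorem T1u_76 {m : ℕ} (hm : 21 ≤ m) : T1u m 7 6 ≤ 3 / 50 := by
  have hmR : (21 : ℝ) ≤ m := by exact_mod_cast hm
  refine le_trans (le_of_eq ?_) (poly_76 hmR)
  unfold T1u
  have e1 : ((m + 7 - 5).factorial : ℝ) = ((m : ℝ) + 2) * ((m + 1).factorial : ℝ) := by
    rw [show m + 7 - 5 = (m + 1) + 1 by omega, Nat.factorial_succ]
    push_cast
    ring
  have e2 : ((m - 3).factorial : ℝ) = ((m : ℝ) - 3) * (((m : ℝ) - 4) * ((m - 5).factorial : ℝ)) := by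
    rw [fac_sub (j := 3) (by omega), fac_sub (j := 4) (by omega)]
    push_cast
    ring
  have e3 : (((7 - 1).factorial : ℕ) : ℝ) = 720 := by norm_num [Nat.factorial]
  have f0 : ((m - 5).factorial : ℝ) ≠ 0 := by exact_mod_cast Nat.factorial_ne_zero _
  have f1 : ((m + 1).factorial : ℝ) ≠ 0 := by exact_mod_cast Nat.factorial_ne_zero _
  rw [e1, e2, e3, show m + 2 - 7 = m - 5 by omega]
  generalize ((m - 5).factorial : ℝ) = F at f0 ⊢
  generalize ((m + 1).factorial : ℝ) = G at f1 ⊢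
  push_cast
  rw [show (m : ℝ) + 6 - 2 * 7 - 6 = m - 14 by ring, show (m : ℝ) + 5 - 7 - 6 = m - 8 by ring,
    show (7 : ℝ) - 6 = 1 by norm_num, show ((6 : ℝ) - 1) / 1 = 5 by norm_num]
  have n1 : (m : ℝ) - 3 ≠ 0 := by
    have : (0 : ℝ) < (m : ℝ) - 3 := by linarith
    exact this.ne'
  have n2 : (m : ℝ) - 4 ≠ 0 := by
    have : (0 : ℝ) < (m : ℝ) - 4 := by linarith
    exact this.ne'
  have n3 : (m : ℝ) - 14 ≠ 0 := by
    have : (0 : ℝ) < (m : ℝ) - 14 := by linarith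
    exact this.ne'
  field_simp

theorem T1u_98 {m : ℕ} (hm : 21 ≤ m) : T1u m 9 8 ≤ 1 / 50 := by
  have hmR : (21 : ℝ) ≤ m := by exact_mod_cast hm
  refine le_trans (le_of_eq ?_) (poly_98 hmR)
  unfold T1u
  have e1 : ((m + 9 - 5).factorial : ℝ) =
      ((m : ℝ) + 4) * (((m : ℝ) + 3) * (((m : ℝ) + 2) * ((m + 1).factorial : ℝ))) := by
    rw [show m + 9 - 5 = (m + 1) + 1 + 1 + 1 by omega, Nat.factorial_succ, Nat.factorial_succ,
      Nat.factorial_succ]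
    push_cast
    ring
  have e2 : ((m - 3).factorial : ℝ) = ((m : ℝ) - 3) * (((m : ℝ) - 4) * (((m : ℝ) - 5) *
      (((m : ℝ) - 6) * ((m - 7).factorial : ℝ)))) := by
    rw [fac_sub (j := 3) (by omega), fac_sub (j := 4) (by omega), fac_sub (j := 5) (by omega),
      fac_sub (j := 6) (by omega)]
    push_cast
    ring
  have e3 : (((9 - 1).factorial : ℕ) : ℝ) = 40320 := by norm_num [Nat.factorial]
  have f0 : ((m - 7).factorial : ℝ) ≠ 0 := by exact_mod_cast Nat.factorial_ne_zero _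
  have f1 : ((m + 1).factorial : ℝ) ≠ 0 := by exact_mod_cast Nat.factorial_ne_zero _
  rw [e1, e2, e3, show m + 2 - 9 = m - 7 by omega]
  generalize ((m - 7).factorial : ℝ) = F at f0 ⊢
  generalize ((m + 1).factorial : ℝ) = G at f1 ⊢
  push_cast
  rw [show (m : ℝ) + 6 - 2 * 9 - 8 = m - 20 by ring, show (m : ℝ) + 5 - 9 - 8 = m - 12 by ring,
    show (9 : ℝ) - 8 = 1 by norm_num, show ((8 : ℝ) - 1) / 1 = 7 by norm_num]
  have n1 : (m : ℝ) - 3 ≠ 0 := by
    have : (0 : ℝ) < (m : ℝ) - 3 := by linarith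
    exact this.ne'
  have n2 : (m : ℝ) - 4 ≠ 0 := by
    have : (0 : ℝ) < (m : ℝ) - 4 := by linarith
    exact this.ne'
  have n3 : (m : ℝ) - 5 ≠ 0 := by
    have : (0 : ℝ) < (m : ℝ) - 5 := by linarith
    exact this.ne'
  have n4 : (m : ℝ) - 6 ≠ 0 := by
    have : (0 : ℝ) < (m : ℝ) - 6 := by linarith
    exact this.ne'
  have n5 : (m : ℝ) - 20 ≠ 0 := by
    have : (0 : ℝ) < (m : ℝ) - 20 := by linarith
    exact this.ne'
  field_simp

end Pool.JM.H5
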