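import Pool.Agent.Work.MP_46fa68_h5.RowN

/-!
# MP_46fa68_co: row 2: closed form and sign of the coefficients
-/

set_option autoImplicit false

open Finset

namespace Pool.JM.H5

/-- closed form of the binomial part -/
theorem Abin_eq {m i : ℕ} (hm : 4 ≤ m) (hi : 3 ≤ i) (k : ℕ) :
    Abin (m - 3) i (i + k) = ((m + i + k - 4).factorial : ℝ) /
      (((m - 4).factorial : ℝ) * ((i - 1).factorial : ℝ) * ((k + 2).factorial : ℝ)) *
      ((((i : ℝ) - 2) / ((i : ℝ) + k)) *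
        ((((m : ℝ) - 3) * (k + 1) - ((i : ℝ) + k)) / ((m : ℝ) - 3))) := by
  obtain ⟨t, rfl⟩ : ∃ t, m = t + 4 := ⟨m - 4, by omega⟩
  obtain ⟨j, rfl⟩ : ∃ j, i = j + 3 := ⟨i - 3, by omega⟩
  have ht : (0 : ℝ) ≤ t := Nat.cast_nonneg t
  have hjR : (0 : ℝ) ≤ j := Nat.cast_nonneg j
  have hkR : (0 : ℝ) ≤ k := Nat.cast_nonneg k
  unfold Abin
  rw [show t + 4 - 3 = t + 1 by omega, show t + 1 + (j + 3 + k) - 1 = t + (j + 3 + k) by omega,
    show j + 3 + k - 1 = (j + 1) + (k + 1) by omega, show j + 3 - 2 = j + 1 by omega,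
    show t + 4 + (j + 3) + k - 4 = t + (j + 3 + k) by omega, show t + 4 - 4 = t by omega,
    show j + 3 - 1 = j + 2 by omega]
  have c1 : (((t + (j + 3 + k)).choose (j + 3 + k) : ℕ) : ℝ) * (t.factorial : ℝ) *
      ((j + 3 + k).factorial : ℝ) = ((t + (j + 3 + k)).factorial : ℝ) := by
    exact_mod_cast Nat.add_choose_mul_factorial_mul_factorial t (j + 3 + k)
  have c2 : ((((j + 1) + (k + 1)).choose (j + 1) : ℕ) : ℝ) * ((j + 1).factorial : ℝ) *
      ((k + 1).factorial : ℝ) = (((j + 1) + (k + 1)).factorial : ℝ) := by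
    have h := Nat.add_choose_mul_factorial_mul_factorial (j + 1) (k + 1)
    rw [← Nat.choose_symm_add] at h
    exact_mod_cast h
  have c3 : (((j + 3 + k).choose (j + 1) : ℕ) : ℝ) * ((j + 1).factorial : ℝ) *
      ((k + 2).factorial : ℝ) = ((j + 3 + k).factorial : ℝ) := by
    have h := Nat.add_choose_mul_factorial_mul_factorial (j + 1) (k + 2)
    rw [← Nat.choose_symm_add, show j + 1 + (k + 2) = j + 3 + k by omega] at h
    exact_mod_cast h
  have s1 : ((j + 3 + k).factorial : ℝ) = ((j : ℝ) + 3 + k) * (((j + 1) + (k + 1)).factorial : ℝ) := by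
    rw [show j + 3 + k = (j + 1) + (k + 1) + 1 by omega, Nat.factorial_succ]
    push_cast
    ring
  have s2 : ((k + 2).factorial : ℝ) = ((k : ℝ) + 2) * ((k + 1).factorial : ℝ) := by
    rw [Nat.factorial_succ]
    push_cast
    ring
  have s3 : ((j + 2).factorial : ℝ) = ((j : ℝ) + 2) * ((j + 1).factorial : ℝ) := by
    rw [Nat.factorial_succ]
    push_cast
    ring
  have f0 : (0 : ℝ) < (t.factorial : ℝ) := by exact_mod_cast Nat.factorial_pos _
  have f1 : (0 : ℝ) < ((j + 3 + k).factorial : ℝ) := by exact_mod_cast Nat.factorial_pos _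
  have f2 : (0 : ℝ) < ((j + 1).factorial : ℝ) := by exact_mod_cast Nat.factorial_pos _
  have f3 : (0 : ℝ) < ((k + 1).factorial : ℝ) := by exact_mod_cast Nat.factorial_pos _
  have f4 : (0 : ℝ) < (((j + 1) + (k + 1)).factorial : ℝ) := by exact_mod_cast Nat.factorial_pos _
  have f5 : (0 : ℝ) < ((t + (j + 3 + k)).factorial : ℝ) := by exact_mod_cast Nat.factorial_pos _
  have f6 : (0 : ℝ) < ((k + 2).factorial : ℝ) := by exact_mod_cast Nat.factorial_pos _
  set F := ((t + (j + 3 + k)).factorial : ℝ) with hF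
  have v1 : (((t + (j + 3 + k)).choose (j + 3 + k) : ℕ) : ℝ) =
      F / ((t.factorial : ℝ) * ((j + 3 + k).factorial : ℝ)) := by
    rw [← c1]
    field_simp
  have v2 : ((((j + 1) + (k + 1)).choose (j + 1) : ℕ) : ℝ) =
      (((j + 1) + (k + 1)).factorial : ℝ) / (((j + 1).factorial : ℝ) * ((k + 1).factorial : ℝ)) := by
    rw [← c2]
    field_simp
  have v3 : (((j + 3 + k).choose (j + 1) : ℕ) : ℝ) =
      ((j + 3 + k).factorial : ℝ) / (((j + 1).factorial : ℝ) * ((k + 2).factorial : ℝ)) := by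
    rw [← c3]
    field_simp
  rw [v1, v2, v3, s1, s2, s3]
  push_cast
  have n1 : (j : ℝ) + 3 + k ≠ 0 := by positivity
  have n2 : (t : ℝ) + 1 ≠ 0 := by positivity
  rw [show (j : ℝ) + 3 - 1 = j + 2 by ring, show (t : ℝ) + 1 + (j + 3) - 2 = t + j + 2 by ring,
    show (j : ℝ) + 3 - 2 = j + 1 by ring, show (t : ℝ) + 4 - 3 = t + 1 by ring]
  field_simp
  ring

theorem Abin_nonneg {m i : ℕ} (hm : 16 ≤ m) (hi : 3 ≤ i) (h3 : 3 * i ≤ m + 6) (k : ℕ) :
    0 ≤ Abin (m - 3) i (i + k) := by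
  rw [Abin_eq (by omega) hi]
  have hmR : (16 : ℝ) ≤ m := by exact_mod_cast hm
  have hiR : (3 : ℝ) ≤ i := by exact_mod_cast hi
  have h3R : 3 * (i : ℝ) ≤ m + 6 := by exact_mod_cast h3
  have hkR : (0 : ℝ) ≤ k := Nat.cast_nonneg k
  have a1 : 0 ≤ (i : ℝ) - 2 := by linarith
  have a2 : 0 ≤ ((m : ℝ) - 3) * (k + 1) - ((i : ℝ) + k) := by nlinarith
  have a3 : 0 ≤ (m : ℝ) - 3 := by linarith
  positivity

theorem kapA_nonneg {m i : ℕ} (hm : 16 ≤ m) : 0 ≤ kapA m i := by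
  have h := (g1m_abs hm).2
  unfold kapA
  have : 0 ≤ -g1m m := by linarith
  positivity

theorem kapA_le {m i : ℕ} (hm : 16 ≤ m) :
    kapA m i ≤ ((m + i - 5).factorial : ℝ) / (((i - 1).factorial : ℝ) * ((m - 3).factorial : ℝ)) *
      (3 * (m : ℝ) - 2) := by
  have h := (g1m_abs hm).1
  unfold kapA
  refine mul_le_mul_of_nonneg_left ?_ (by positivity)
  exact (neg_le_abs _).trans h

/-- the bracket is nonnegative near the wall -/
theorem bracket_nonneg {m i : ℕ} (hm : 16 ≤ m) (hi : 3 ≤ i) (h3 : 3 * i ≤ m + 6) (k : ℕ) :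
    0 ≤ ((i - 1 + k).choose (k + 2) : ℝ) + g1m m * ((i - 2 + k).choose (k + 1) : ℝ) +
      g2m m * ((i - 3 + k).choose k : ℝ) := by
  obtain ⟨j, rfl⟩ : ∃ j, i = j + 3 := ⟨i - 3, by omega⟩
  rw [show j + 3 - 1 + k = (j + k + 1) + 1 by omega, show j + 3 - 2 + k = (j + k) + 1 by omega,
    show j + 3 - 3 + k = j + k by omega]
  have hkR : (0 : ℝ) ≤ k := Nat.cast_nonneg k
  have hjR : (0 : ℝ) ≤ j := Nat.cast_nonneg j
  have hmR : (16 : ℝ) ≤ m := by exact_mod_cast hm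
  have hj3 : 3 * ((j : ℝ) + 3) ≤ m + 6 := by
    have : ((3 * (j + 3) : ℕ) : ℝ) ≤ ((m + 6 : ℕ) : ℝ) := by exact_mod_cast h3
    push_cast at this
    linarith
  set e := ((j + k).choose k : ℝ) with he
  have he0 : 0 ≤ e := Nat.cast_nonneg _
  have hk1 : (0 : ℝ) < (k : ℝ) + 1 := by positivity
  have e1 : ((j + k + 1).choose (k + 1) : ℝ) = e * (((j : ℝ) + k + 1) / ((k : ℝ) + 1)) := by
    have := Nat.add_one_mul_choose_eq (j + k) k
    have h : ((j : ℝ) + k + 1) * e = ((j + k + 1).choose (k + 1) : ℝ) * ((k : ℝ) + 1) := by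
      rw [he]
      exact_mod_cast this
    field_simp
    linarith
  rw [e1]
  have hα1 : ((j : ℝ) + k + 1) / ((k : ℝ) + 1) ≤ j + 1 := by
    rw [div_le_iff₀ hk1]
    nlinarith
  have h0 : (0 : ℝ) ≤ ((j + k + 1 + 1).choose (k + 2) : ℝ) := Nat.cast_nonneg _
  have hc0 : 0 ≤ 1 - cm m := by
    have := cm_le' hm
    linarith
  have h1 : (1 - cm m) * (3 * m + 1) * (((j : ℝ) + k + 1) / ((k : ℝ) + 1)) ≤
      (1 - cm m) * (2 * m * (m + 1)) := by
    have h2 : (3 * (m : ℝ) + 1) * (((j : ℝ) + k + 1) / ((k : ℝ) + 1)) ≤ 2 * m * (m + 1) := by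
      calc (3 * (m : ℝ) + 1) * (((j : ℝ) + k + 1) / ((k : ℝ) + 1))
          ≤ (3 * (m : ℝ) + 1) * ((j : ℝ) + 1) :=
            mul_le_mul_of_nonneg_left hα1 (by positivity)
        _ ≤ (3 * (m : ℝ) + 1) * (m / 3) := by
            refine mul_le_mul_of_nonneg_left ?_ (by positivity)
            linarith
        _ ≤ _ := by nlinarith
    calc (1 - cm m) * (3 * m + 1) * (((j : ℝ) + k + 1) / ((k : ℝ) + 1))
        = (1 - cm m) * ((3 * (m : ℝ) + 1) * (((j : ℝ) + k + 1) / ((k : ℝ) + 1))) := by ring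
      _ ≤ _ := mul_le_mul_of_nonneg_left h2 hc0
  have h3' : g1m m * (e * (((j : ℝ) + k + 1) / ((k : ℝ) + 1))) + g2m m * e =
      ((1 - cm m) * (2 * m * (m + 1)) -
        (1 - cm m) * (3 * m + 1) * (((j : ℝ) + k + 1) / ((k : ℝ) + 1))) * e := by
    unfold g1m g2m
    ring
  have h4 : 0 ≤ g1m m * (e * (((j : ℝ) + k + 1) / ((k : ℝ) + 1))) + g2m m * e := by
    rw [h3']
    exact mul_nonneg (by linarith) he0
  linarith

theorem kapB_nonneg {m i : ℕ} (hm : 16 ≤ m) (hi : 3 ≤ i) (h3 : 3 * i ≤ m + 6) (k : ℕ) :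
    0 ≤ kapB m i k := by
  unfold kapB
  have h1 := Abin_nonneg hm hi h3 k
  have h2 := bracket_nonneg hm hi h3 k
  have h4 : 0 ≤ ((m + i - 5).factorial : ℝ) / (((i - 1).factorial : ℝ) * ((m - 3).factorial : ℝ)) := by
    positivity
  have := mul_nonneg h4 h2
  linarith

end Pool.JM.H5
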