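import Pool.Agent.Work.MP_46fa68_h5.RowP

/-!
# MP_46fa68_co: row 2: the context, bounds of the ratio
-/

set_option autoImplicit false

open Finset

namespace Pool.JM.H5

/-- the context: row 2 is the bead `M + m - i`, `d` = wall distance of row 1, `b` boxes below row 2 -/
structure R2 (m M i b : ℕ) (d : ℝ) (B : Finset ℕ) : Prop where
  hB : B ∈ Lv (M + 1) (m + (m - 3))
  hT : tb B ∈ B
  hx : M + m - i ∈ B.erase (tb B)
  hmax : ∀ y ∈ B.erase (tb B), y ≤ M + m - i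
  hi3 : 3 ≤ i
  him : i ≤ m + 1
  hM : 1 ≤ M
  hd : d = (M : ℝ) + m - tb B
  hbd : (b : ℝ) = i + d - 4
  hdi : d + 1 ≤ i
  hc : ((B.erase (tb B)).erase (M + m - i)).card = M - 1
  hs : ∑ y ∈ (B.erase (tb B)).erase (M + m - i), y = ∑ y ∈ range (M - 1), y + b
  hb : ∀ y ∈ (B.erase (tb B)).erase (M + m - i), y < M + m - i

/-- every configuration has a row 2 -/
theorem exists_R2 {m M : ℕ} (hm : 3 ≤ m) (hM : 1 ≤ M) {B : Finset ℕ}
    (hB : B ∈ Lv (M + 1) (m + (m - 3))) : ∃ i b : ℕ, R2 m M i b ((M : ℝ) + m - tb B) B := by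
  obtain ⟨l, a, b, h1, h2, h3, h4, h5, h6, h7, h8, h9, h10⟩ := two_data hM hB
  have ha : a + 2 ≤ m := by omega
  have e : M - 1 + a = M + m - (m + 1 - a) := by omega
  refine ⟨m + 1 - a, b, hB, h5, by rw [← e]; exact h6, by rw [← e]; exact h7, by omega, by omega, hM,
    rfl, ?_, ?_, by rw [← e]; exact h8, by rw [← e]; exact h9, by rw [← e]; exact h10⟩
  · rw [Nat.cast_sub (by omega), h1]
    push_cast
    have h3' : (l : ℝ) + a + b + 3 = 2 * m := by
      have : l + a + b + 3 = 2 * m := by omega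
      exact_mod_cast this
    linarith
  · rw [Nat.cast_sub (by omega), h1]
    push_cast
    have h4' : (a : ℝ) ≤ l := by exact_mod_cast h4
    linarith

namespace R2

variable {m M i b : ℕ} {d : ℝ} {B : Finset ℕ}

theorem eqx (h : R2 m M i b d B) : M + m - i = M - 1 + (m + 1 - i) := by
  have := h.him
  have := h.hM
  omega

theorem Q_ge (h : R2 m M i b d B) (p : ℕ) :
    ((m + 1 - i).factorial : ℝ) / ((m + 1 - i + p).factorial : ℝ) ≤
      Rr (B.erase (tb B)) (M + m - i) p := by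
  have e := h.eqx
  have hc := h.hc
  have hs := h.hs
  have hb := h.hb
  have hmax := h.hmax
  rw [e] at hc hs hb hmax ⊢
  exact Rr_ge_fact hc hs hb hmax p

theorem Q_le (h : R2 m M i b d B) (hab : b ≤ m + 1 - i) (p : ℕ) :
    Rr (B.erase (tb B)) (M + m - i) p ≤
      ((m + 2 - i).factorial : ℝ) / ((m + 2 - i + p).factorial : ℝ) *
        (((m : ℝ) + 6 - 2 * i - d + p) / ((m : ℝ) + 6 - 2 * i - d)) := by
  have e := h.eqx
  have hc := h.hc
  have hs := h.hs
  have hb := h.hb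
  have him := h.him
  rw [e] at hc hs hb ⊢
  have h1 := Rr_top_le hc hs hb hab p
  rw [show m + 1 - i + 1 = m + 2 - i by omega] at h1
  refine h1.trans (le_of_eq ?_)
  congr 1
  have hD : ((m + 1 - i : ℕ) : ℝ) - b + 1 = (m : ℝ) + 6 - 2 * i - d := by
    rw [Nat.cast_sub him, h.hbd]
    push_cast
    ring
  have hD0 : (0 : ℝ) < (m : ℝ) + 6 - 2 * i - d := by
    rw [← hD]
    have : (b : ℝ) ≤ ((m + 1 - i : ℕ) : ℝ) := by exact_mod_cast hab
    linarith
  rw [hD]
  field_simp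

theorem D_pos (h : R2 m M i b d B) (hab : b ≤ m + 1 - i) : 1 ≤ (m : ℝ) + 6 - 2 * i - d := by
  have him := h.him
  have hD : ((m + 1 - i : ℕ) : ℝ) - b + 1 = (m : ℝ) + 6 - 2 * i - d := by
    rw [Nat.cast_sub him, h.hbd]
    push_cast
    ring
  rw [← hD]
  have : (b : ℝ) ≤ ((m + 1 - i : ℕ) : ℝ) := by exact_mod_cast hab
  linarith

/-- near the wall there are at most `a` boxes below row 2 -/
theorem hab_near (h : R2 m M i b d B) (h3 : 3 * i ≤ m + 6) : b ≤ m + 1 - i := by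
  have h1 := h.hbd
  have h2 := h.hdi
  have h3' : (b : ℝ) + 5 ≤ 2 * i := by linarith
  have h4 : b + 5 ≤ 2 * i := by exact_mod_cast h3'
  omega

theorem Q1_ge (h : R2 m M i b d B) :
    ((m + 1 - i).factorial : ℝ) / (m.factorial : ℝ) ≤ Rr (B.erase (tb B)) (M + m - i) (i - 1) := by
  have h1 := h.Q_ge (i - 1)
  have := h.him
  have := h.hi3
  rwa [show m + 1 - i + (i - 1) = m by omega] at h1

theorem Qk_ge (h : R2 m M i b d B) (k : ℕ) :
    ((m + 1 - i).factorial : ℝ) / ((m + 1 + k).factorial : ℝ) ≤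
      Rr (B.erase (tb B)) (M + m - i) (i + k) := by
  have h1 := h.Q_ge (i + k)
  have := h.him
  rwa [show m + 1 - i + (i + k) = m + 1 + k by omega] at h1

theorem Q1_le (h : R2 m M i b d B) (hab : b ≤ m + 1 - i) :
    Rr (B.erase (tb B)) (M + m - i) (i - 1) ≤
      ((m + 2 - i).factorial : ℝ) / ((m + 1).factorial : ℝ) *
        (((m : ℝ) + 5 - i - d) / ((m : ℝ) + 6 - 2 * i - d)) := by
  have h1 := h.Q_le hab (i - 1)
  have := h.him
  have hi3 := h.hi3
  rw [show m + 2 - i + (i - 1) = m + 1 by omega, Nat.cast_sub (by omega)] at h1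
  refine h1.trans (le_of_eq ?_)
  push_cast
  congr 2
  ring

theorem Qk_le (h : R2 m M i b d B) (hab : b ≤ m + 1 - i) (k : ℕ) :
    Rr (B.erase (tb B)) (M + m - i) (i + k) ≤
      ((m + 2 - i).factorial : ℝ) / ((m + 2 + k).factorial : ℝ) *
        (((m : ℝ) + 6 - i - d + k) / ((m : ℝ) + 6 - 2 * i - d)) := by
  have h1 := h.Q_le hab (i + k)
  have := h.him
  rw [show m + 2 - i + (i + k) = m + 2 + k by omega] at h1
  refine h1.trans (le_of_eq ?_)
  push_cast
  congr 2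
  ring

theorem Qpos (h : R2 m M i b d B) (p : ℕ) : 0 ≤ Rr (B.erase (tb B)) (M + m - i) p :=
  le_trans (by positivity) (h.Q_ge p)

theorem neg_Cr (h : R2 m M i b d B) (hm : 4 ≤ m) {A : ℕ} (hiA : i ≤ A) :
    -Cr m A (M + m) B (M + m - i) = (-1) ^ i *
      (kapA m i * ((d - 1) / ((i : ℝ) - d)) * Rr (B.erase (tb B)) (M + m - i) (i - 1) -
        ∑ k ∈ range (A + 1 - i), kapB m i k * ((d + k) / ((i : ℝ) - d)) *
          Rr (B.erase (tb B)) (M + m - i) (i + k)) :=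
  neg_Cr_two hm h.hi3 (by have := h.him; have := h.hM; omega) hiA h.hT h.hx rfl h.hd

theorem di_pos (h : R2 m M i b d B) : 1 ≤ (i : ℝ) - d := by
  have := h.hdi
  linarith

/-- even layer, `d ≥ 1`: a lower bound -/
theorem lower_even (h : R2 m M i b d B) (hm : 4 ≤ m) {A : ℕ} (hiA : i ≤ A) (he : Even i)
    {U : ℝ} (hU : ∑ k ∈ range (A + 1 - i), kapB m i k * ((d + k) / ((i : ℝ) - d)) *
          Rr (B.erase (tb B)) (M + m - i) (i + k) ≤ U) :
    kapA m i * ((d - 1) / ((i : ℝ) - d)) * Rr (B.erase (tb B)) (M + m - i) (i - 1) - U ≤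
      -Cr m A (M + m) B (M + m - i) := by
  rw [h.neg_Cr hm hiA, he.neg_one_pow, one_mul]
  linarith

/-- odd layer near the wall, `d ≥ 0`: a lower bound -/
theorem lower_odd (h : R2 m M i b d B) (hm : 16 ≤ m) {A : ℕ} (hiA : i ≤ A) (ho : Odd i)
    (h3 : 3 * i ≤ m + 6) (hd0 : 0 ≤ d) :
    -(kapA m i * ((d - 1) / ((i : ℝ) - d)) * Rr (B.erase (tb B)) (M + m - i) (i - 1)) ≤
      -Cr m A (M + m) B (M + m - i) := by
  rw [h.neg_Cr (by omega) hiA, ho.neg_one_pow]
  have h1 : 0 ≤ ∑ k ∈ range (A + 1 - i), kapB m i k * ((d + k) / ((i : ℝ) - d)) *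
          Rr (B.erase (tb B)) (M + m - i) (i + k) := by
    refine sum_nonneg fun k _ => ?_
    have h2 := kapB_nonneg hm h.hi3 h3 k
    have h4 := h.Qpos (i + k)
    have h5 := h.di_pos
    have h6 : 0 ≤ (d + k) / ((i : ℝ) - d) := div_nonneg (by positivity) (by linarith)
    positivity
  linarith

/-- row 2 at `i = 3`, `d = 1` -/
theorem low_13 (h : R2 m M 3 b 1 B) (hm : 16 ≤ m) {A : ℕ} (hiA : 3 ≤ A) :
    0 ≤ -Cr m A (M + m) B (M + m - 3) := by
  have h1 := h.lower_odd hm hiA (by decide) (by omega) (by norm_num)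
  simp only [sub_self, zero_div, mul_zero, zero_mul, neg_zero] at h1
  exact h1

/-- row 2 at `i = 3`, `d = 2` -/
theorem low_23 (h : R2 m M 3 b 2 B) (hm : 16 ≤ m) {A : ℕ} (hiA : 4 ≤ A) :
    0 ≤ -Cr m A (M + m) B (M + m - 3) := by
  have hmR : (16 : ℝ) ≤ m := by exact_mod_cast hm
  rw [h.neg_Cr (by omega) (by omega), show ((-1 : ℝ)) ^ 3 = -1 by norm_num]
  have hab := h.hab_near (by omega)
  -- the first term
  have q1 := h.Q1_le hab
  have q2 := h.Qk_ge 0
  have hA := kapA_nonneg (i := 3) hm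
  -- the sum is at least its first term
  have s1 : kapB m 3 0 * ((2 + ((0 : ℕ) : ℝ)) / (((3 : ℕ) : ℝ) - 2)) *
      Rr (B.erase (tb B)) (M + m - 3) (3 + 0) ≤
      ∑ k ∈ range (A + 1 - 3), kapB m 3 k * ((2 + k) / (((3 : ℕ) : ℝ) - 2)) *
          Rr (B.erase (tb B)) (M + m - 3) (3 + k) := by
    refine single_le_sum (f := fun k : ℕ => kapB m 3 k * ((2 + (k : ℝ)) / (((3 : ℕ) : ℝ) - 2)) *
          Rr (B.erase (tb B)) (M + m - 3) (3 + k)) (fun k _ => ?_) (mem_range.2 (by omega))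
    have h2 := kapB_nonneg (i := 3) hm le_rfl (by omega) k
    have h4 := h.Qpos (3 + k)
    have h6 : (0 : ℝ) ≤ (2 + (k : ℝ)) / (((3 : ℕ) : ℝ) - 2) := by
      push_cast
      norm_num
      positivity
    positivity
  -- the coefficients
  have hc0 : 0 ≤ 1 - cm m := by
    have := cm_le' hm
    linarith
  have hF : ((m - 2).factorial : ℝ) = ((m : ℝ) - 2) * ((m - 3).factorial : ℝ) := by
    rw [show m - 2 = (m - 3) + 1 by omega, Nat.factorial_succ]
    push_cast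
    rw [Nat.cast_sub (by omega)]
    push_cast
    ring
  have hF1 : ((m - 1).factorial : ℝ) = ((m : ℝ) - 1) * ((m - 2).factorial : ℝ) := by
    rw [show m - 1 = (m - 2) + 1 by omega, Nat.factorial_succ]
    push_cast
    rw [Nat.cast_sub (by omega)]
    push_cast
    ring
  have hF2 : (m.factorial : ℝ) = (m : ℝ) * ((m - 1).factorial : ℝ) := by
    conv_lhs => rw [show m = (m - 1) + 1 by omega, Nat.factorial_succ]
    push_cast
    rw [Nat.cast_sub (by omega)]
    push_cast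
    ring
  have hF3 : ((m + 1).factorial : ℝ) = ((m : ℝ) + 1) * (m.factorial : ℝ) := by
    rw [Nat.factorial_succ]
    push_cast
    ring
  have f0 : (0 : ℝ) < ((m - 3).factorial : ℝ) := by exact_mod_cast Nat.factorial_pos _
  have f1 : (0 : ℝ) < ((m - 2).factorial : ℝ) := by exact_mod_cast Nat.factorial_pos _
  have kA : kapA m 3 = ((m : ℝ) - 2) / 2 * ((1 - cm m) * (3 * m + 1)) := by
    unfold kapA g1m
    rw [show m + 3 - 5 = m - 2 by omega, hF]
    norm_num [Nat.factorial]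
    field_simp
    ring
  have kB : ((m : ℝ) - 2) / 2 * ((1 - cm m) * (2 * m * (m + 1)) - (1 - cm m) * (3 * m + 1)) ≤
      kapB m 3 0 := by
    unfold kapB g1m g2m
    rw [show m + 3 - 5 = m - 2 by omega, hF]
    have h8 := Abin_nonneg (i := 3) hm le_rfl (by omega) 0
    norm_num [Nat.factorial] at h8 ⊢
    have h9 : ((m : ℝ) - 2) * ((m - 3).factorial : ℝ) / (2 * ((m - 3).factorial : ℝ)) =
        ((m : ℝ) - 2) / 2 := by
      field_simp
    rw [h9]
    have h10 : (0 : ℝ) ≤ ((m : ℝ) - 2) / 2 := by linarith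
    nlinarith
  have q1' : Rr (B.erase (tb B)) (M + m - 3) (3 - 1) ≤ 1 / (((m : ℝ) - 2) * (m + 1)) := by
    refine q1.trans (le_of_eq ?_)
    rw [show m + 2 - 3 = m - 1 by omega, hF3, hF2]
    push_cast
    have g1 : (0 : ℝ) < ((m - 1).factorial : ℝ) := by exact_mod_cast Nat.factorial_pos _
    rw [show (m : ℝ) + 6 - 2 * 3 - 2 = m - 2 by ring, show (m : ℝ) + 5 - 3 - 2 = m by ring]
    have g3 : (m : ℝ) - 2 ≠ 0 := by
      have : (0 : ℝ) < (m : ℝ) - 2 := by linarith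
      exact this.ne'
    have g4 : (m : ℝ) ≠ 0 := by positivity
    field_simp
  have q2' : 1 / (((m : ℝ) - 1) * m * (m + 1)) ≤ Rr (B.erase (tb B)) (M + m - 3) (3 + 0) := by
    refine le_trans (le_of_eq ?_) q2
    rw [show m + 1 - 3 = m - 2 by omega, add_zero, hF3, hF2, hF1]
    have g3 : (m : ℝ) - 1 ≠ 0 := by
      have : (0 : ℝ) < (m : ℝ) - 1 := by linarith
      exact this.ne'
    field_simp
  have t1 : kapA m 3 * ((2 - 1) / (((3 : ℕ) : ℝ) - 2)) * Rr (B.erase (tb B)) (M + m - 3) (3 - 1) ≤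
      (1 - cm m) * (3 * m + 1) / (2 * (m + 1)) := by
    have e1 : ((2 : ℝ) - 1) / (((3 : ℕ) : ℝ) - 2) = 1 := by norm_num
    rw [e1, mul_one]
    refine (mul_le_mul_of_nonneg_left q1' hA).trans (le_of_eq ?_)
    rw [kA]
    have g3 : (m : ℝ) - 2 ≠ 0 := by
      have : (0 : ℝ) < (m : ℝ) - 2 := by linarith
      exact this.ne'
    field_simp
  have t2 : (1 - cm m) * ((m : ℝ) - 2) * (2 * m + 1) / (m * (m + 1)) ≤
      kapB m 3 0 * ((2 + ((0 : ℕ) : ℝ)) / (((3 : ℕ) : ℝ) - 2)) *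
        Rr (B.erase (tb B)) (M + m - 3) (3 + 0) := by
    have e1 : ((2 : ℝ) + ((0 : ℕ) : ℝ)) / (((3 : ℕ) : ℝ) - 2) = 2 := by norm_num
    rw [e1]
    have hB0 := kapB_nonneg (i := 3) hm le_rfl (by omega) 0
    have hx0 : (0 : ℝ) ≤ 1 / (((m : ℝ) - 1) * m * (m + 1)) := by
      have : (0 : ℝ) < (m : ℝ) - 1 := by linarith
      positivity
    calc (1 - cm m) * ((m : ℝ) - 2) * (2 * m + 1) / (m * (m + 1))
        = ((m : ℝ) - 2) / 2 * ((1 - cm m) * (2 * m * (m + 1)) - (1 - cm m) * (3 * m + 1)) * 2 *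
          (1 / (((m : ℝ) - 1) * m * (m + 1))) := by
          have g3 : (m : ℝ) - 1 ≠ 0 := by
            have : (0 : ℝ) < (m : ℝ) - 1 := by linarith
            exact this.ne'
          field_simp
          ring
      _ ≤ kapB m 3 0 * 2 * (1 / (((m : ℝ) - 1) * m * (m + 1))) :=
          mul_le_mul_of_nonneg_right (mul_le_mul_of_nonneg_right kB (by norm_num)) hx0
      _ ≤ _ := mul_le_mul_of_nonneg_left q2' (by positivity)
  have t3 : (1 - cm m) * (3 * m + 1) / (2 * (m + 1)) ≤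
      (1 - cm m) * ((m : ℝ) - 2) * (2 * m + 1) / (m * (m + 1)) := by
    rw [div_le_div_iff₀ (by positivity) (by positivity)]
    have h9 : (3 * (m : ℝ) + 1) * (m * (m + 1)) ≤ ((m : ℝ) - 2) * (2 * m + 1) * (2 * (m + 1)) := by
      have h10 : (3 * (m : ℝ) + 1) * m ≤ ((m : ℝ) - 2) * (2 * m + 1) * 2 := by nlinarith
      calc (3 * (m : ℝ) + 1) * (m * (m + 1)) = ((3 * (m : ℝ) + 1) * m) * (m + 1) := by ring
        _ ≤ (((m : ℝ) - 2) * (2 * m + 1) * 2) * (m + 1) :=
            mul_le_mul_of_nonneg_right h10 (by positivity)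
        _ = _ := by ring
    calc (1 - cm m) * (3 * (m : ℝ) + 1) * (m * (m + 1))
        = (1 - cm m) * ((3 * (m : ℝ) + 1) * (m * (m + 1))) := by ring
      _ ≤ (1 - cm m) * (((m : ℝ) - 2) * (2 * m + 1) * (2 * (m + 1))) :=
          mul_le_mul_of_nonneg_left h9 hc0
      _ = _ := by ring
  linarith

end R2

end Pool.JM.H5
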